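import Pool.Agent.D0H77.Leo

/-!
# The Krawtchouk Leonard pair: relations and the triples of sl₂ type
-/

set_option autoImplicit false

namespace Pool.Agent.D0H77

open Module Matrix

section Defs

variable (K : Type*) [Field K] (d : ℕ)

/-- The matrix `A` of the problem: `A_{i,i+1} = d - i`, `A_{i+1,i} = i + 1`, other entries zero. -/
def matA : Matrix (Fin (d + 1)) (Fin (d + 1)) K :=
  Matrix.of fun i j => if (i : ℕ) + 1 = j then (d : K) - (i : ℕ) else
    if (j : ℕ) + 1 = i then ((j : ℕ) : K) + 1 else 0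

/-- The matrix `A^* = diag(d, d - 2, …, -d)` of the problem. -/
def matB : Matrix (Fin (d + 1)) (Fin (d + 1)) K := Matrix.diagonal fun i => (d : K) - 2 * (i : ℕ)

end Defs

section Comm

variable {K : Type*} [Field K] {V : Type*} [AddCommGroup V] [Module K V]

theorem comm_formula {X Y Z : Module.End K V} (h1 : X * Y - Y * X = (-2 : K) • Z)
    (h2 : Y * Z - Z * Y = (2 : K) • X) (h3 : Z * X - X * Z = (2 : K) • Y) (α β γ α' β' γ' : K) :
    (α • X + β • Y + γ • Z) * (α' • X + β' • Y + γ' • Z) -
      (α' • X + β' • Y + γ' • Z) * (α • X + β • Y + γ • Z) =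
      (2 * (β * γ' - γ * β')) • X + (2 * (γ * α' - α * γ')) • Y + (-2 * (α * β' - β * α')) • Z := by
  simp only [mul_add, add_mul, smul_mul_assoc, mul_smul_comm]
  linear_combination (norm := module) (α * β' - β * α') • h1 + (β * γ' - γ * β') • h2 +
    (γ * α' - α * γ') • h3

theorem comm_formula' {X Y Z : Module.End K V} (h1 : X * Y - Y * X = (-2 : K) • Z)
    (h2 : Y * Z - Z * Y = (2 : K) • X) (h3 : Z * X - X * Z = (2 : K) • Y)
    {α β γ α' β' γ' : K} {P Q R : Module.End K V} {u v w : K} (c : K)
    (hP : P = α • X + β • Y + γ • Z) (hQ : Q = α' • X + β' • Y + γ' • Z)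
    (hR : R = u • X + v • Y + w • Z) (hu : 2 * (β * γ' - γ * β') = c * u)
    (hv : 2 * (γ * α' - α * γ') = c * v) (hw : -2 * (α * β' - β * α') = c * w) :
    P * Q - Q * P = c • R := by
  rw [hP, hQ, hR, comm_formula h1 h2 h3, hu, hv, hw]
  module

end Comm

section Pair

variable {K : Type*} [Field K] {d : ℕ}

/-- the standard basis, extended by zero -/
def ev (K : Type*) [Field K] (d j : ℕ) : Fin (d + 1) → K := fun i => if (i : ℕ) = j then 1 else 0

theorem ev_apply (j : ℕ) (i : Fin (d + 1)) : ev K d j i = if (i : ℕ) = j then 1 else 0 := rfl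

theorem basisFun_eq (i : Fin (d + 1)) : (Pi.basisFun K (Fin (d + 1))) i = ev K d i := by
  ext k
  rw [Pi.basisFun_apply, Pi.single_apply, ev_apply]
  by_cases h : k = i
  · rw [if_pos h, if_pos (by rw [h])]
  · rw [if_neg h, if_neg (fun h' => h (Fin.ext h'))]

theorem ev_big {j : ℕ} (hj : d < j) : ev K d j = 0 := by
  ext i
  rw [ev_apply, if_neg (by have := i.2; omega)]
  rfl

theorem mulVec_ev (M : Matrix (Fin (d + 1)) (Fin (d + 1)) K) (j i : Fin (d + 1)) :
    (M *ᵥ ev K d j) i = M i j := by
  rw [← basisFun_eq, Pi.basisFun_apply]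
  simp

/-- `A e_j = (j + 1) e_{j+1} + (d - j + 1) e_{j-1}` -/
theorem A_ev (j : ℕ) : matA K d *ᵥ ev K d (j + 1) =
    ((j : K) + 2) • ev K d (j + 2) + ((d : K) - j) • ev K d j := by
  by_cases hj : j + 1 < d + 1
  · ext i
    rw [show j + 1 = ((⟨j + 1, hj⟩ : Fin (d + 1)) : ℕ) from rfl, mulVec_ev]
    simp only [matA, Matrix.of_apply, Pi.add_apply, Pi.smul_apply, ev_apply, smul_eq_mul]
    by_cases h1 : (i : ℕ) = j
    · rw [if_pos (by omega), if_neg (by omega), if_pos h1, h1]
      ring
    · by_cases h2 : (i : ℕ) = j + 2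
      · rw [if_neg (by omega), if_pos (by omega), if_pos h2, if_neg h1]
        push_cast
        ring
      · rw [if_neg (by omega), if_neg (by omega), if_neg h2, if_neg h1]
        ring
  · rw [ev_big (by omega), ev_big (by omega)]
    rcases Nat.lt_or_ge d j with h | h
    · rw [ev_big h]; simp
    · have : j = d := by omega
      subst this
      simp

theorem A_ev_zero : matA K d *ᵥ ev K d 0 = ev K d 1 := by
  ext i
  rw [show (0 : ℕ) = ((0 : Fin (d + 1)) : ℕ) from rfl, mulVec_ev]
  simp only [matA, Matrix.of_apply, ev_apply]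
  by_cases h2 : (i : ℕ) = 1
  · rw [if_neg (by simp), if_pos (by simp [h2]), if_pos h2]
    simp
  · rw [if_neg (by simp), if_neg (by simp; omega), if_neg h2]

theorem B_ev (j : ℕ) : matB K d *ᵥ ev K d j = ((d : K) - 2 * j) • ev K d j := by
  ext i
  rw [matB, Matrix.mulVec_diagonal, Pi.smul_apply, ev_apply, smul_eq_mul]
  by_cases h : (i : ℕ) = j
  · rw [if_pos h, h]
  · rw [if_neg h, mul_zero, mul_zero]

/-- the linear maps of the two matrices -/
abbrev XX (K : Type*) [Field K] (d : ℕ) : Module.End K (Fin (d + 1) → K) := Matrix.toLin' (matA K d)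

/-- the linear maps of the two matrices -/
abbrev YY (K : Type*) [Field K] (d : ℕ) : Module.End K (Fin (d + 1) → K) := Matrix.toLin' (matB K d)

theorem X_ev (j : ℕ) : XX K d (ev K d (j + 1)) =
    ((j : K) + 2) • ev K d (j + 2) + ((d : K) - j) • ev K d j := A_ev j

theorem X_ev_zero : XX K d (ev K d 0) = ev K d 1 := A_ev_zero

theorem Y_ev (j : ℕ) : YY K d (ev K d j) = ((d : K) - 2 * j) • ev K d j := B_ev j

theorem end_ext {S T : Module.End K (Fin (d + 1) → K)} (h : ∀ j, S (ev K d j) = T (ev K d j)) :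
    S = T := by
  refine (Pi.basisFun K (Fin (d + 1))).ext fun i => ?_
  rw [basisFun_eq]
  exact h i

theorem rel1 : YY K d * (YY K d * XX K d) - (2 : K) • (YY K d * (XX K d * YY K d)) +
    XX K d * (YY K d * YY K d) = (4 : K) • XX K d := by
  refine end_ext fun j => ?_
  simp only [LinearMap.add_apply, LinearMap.sub_apply, LinearMap.smul_apply, Module.End.mul_apply]
  rcases j with _ | j
  · simp only [Y_ev, X_ev_zero, map_smul]
    match_scalars
    push_cast
    ring
  · simp only [Y_ev, X_ev, map_smul, map_add]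
    match_scalars <;> (push_cast; ring)

theorem rel2 : XX K d * (XX K d * YY K d) - (2 : K) • (XX K d * (YY K d * XX K d)) +
    YY K d * (XX K d * XX K d) = (4 : K) • YY K d := by
  refine end_ext fun j => ?_
  simp only [LinearMap.add_apply, LinearMap.sub_apply, LinearMap.smul_apply, Module.End.mul_apply]
  rcases j with _ | _ | j
  · have e1 : XX K d (ev K d 1) = (2 : K) • ev K d 2 + (d : K) • ev K d 0 := by
      have := X_ev (K := K) (d := d) 0
      simpa using this
    simp only [Y_ev, X_ev_zero, map_smul, map_add, e1]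
    match_scalars
    · push_cast; ring
    · push_cast; ring
  · have e1 : XX K d (ev K d 1) = (2 : K) • ev K d 2 + (d : K) • ev K d 0 := by
      have := X_ev (K := K) (d := d) 0
      simpa using this
    have e2 : XX K d (ev K d 2) = (3 : K) • ev K d 3 + ((d : K) - 1) • ev K d 1 := by
      have := X_ev (K := K) (d := d) 1
      rw [this]
      norm_num
    simp only [Y_ev, zero_add, X_ev_zero, map_smul, map_add, e1, e2]
    match_scalars
    · push_cast; ring
    · push_cast; ring
  · simp only [Y_ev, X_ev, map_smul, map_add]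
    match_scalars
    · push_cast; ring
    · push_cast; ring
    · push_cast; ring

/-- `Z = [Y, X] / 2` -/
noncomputable def ZZ (K : Type*) [Field K] (d : ℕ) : Module.End K (Fin (d + 1) → K) :=
  (2 : K)⁻¹ • (YY K d * XX K d - XX K d * YY K d)

variable [CharZero K]

theorem c1 : XX K d * YY K d - YY K d * XX K d = (-2 : K) • ZZ K d := by
  rw [ZZ, smul_smul, show (-2 : K) * 2⁻¹ = -1 by norm_num]
  module

theorem c2 : YY K d * ZZ K d - ZZ K d * YY K d = (2 : K) • XX K d := by
  have h := rel1 (K := K) (d := d)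
  rw [ZZ]
  simp only [mul_sub, sub_mul, smul_mul_assoc, mul_smul_comm, mul_assoc]
  linear_combination (norm := module) (2 : K)⁻¹ • h

theorem c3 : ZZ K d * XX K d - XX K d * ZZ K d = (2 : K) • YY K d := by
  have h := rel2 (K := K) (d := d)
  rw [ZZ]
  simp only [mul_sub, sub_mul, smul_mul_assoc, mul_smul_comm, mul_assoc]
  linear_combination (norm := module) (2 : K)⁻¹ • h

theorem irrX : IrrTri (LinearMap.toMatrix (Pi.basisFun K (Fin (d + 1))) (Pi.basisFun K (Fin (d + 1)))
    (XX K d)) := by
  have : LinearMap.toMatrix (Pi.basisFun K (Fin (d + 1))) (Pi.basisFun K (Fin (d + 1))) (XX K d) =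
      matA K d := by
    rw [XX, LinearMap.toMatrix_eq_toMatrix', LinearMap.toMatrix'_toLin']
  rw [this]
  intro i j
  simp only [matA, Matrix.of_apply]
  constructor
  · rintro (h | h)
    · rw [if_neg (by omega), if_neg (by omega)]
    · rw [if_neg (by omega), if_neg (by omega)]
  · rintro (h | h)
    · rw [if_pos h]
      have h3 : (i : ℕ) < d := by have := j.2; omega
      have h4 : (d : K) - (i : ℕ) = ((d - i : ℕ) : K) := by
        push_cast [Nat.cast_sub h3.le]
        ring
      rw [h4]
      exact Nat.cast_ne_zero.2 (by omega)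
    · rw [if_neg (by omega), if_pos h]
      exact_mod_cast Nat.succ_ne_zero (j : ℕ)

theorem inj_eig : Function.Injective fun i : Fin (d + 1) => (d : K) - 2 * ((i : ℕ) : K) := by
  intro i j hij
  have h : (d : K) - 2 * ((i : ℕ) : K) = (d : K) - 2 * ((j : ℕ) : K) := hij
  have h' : (2 : K) * ((i : ℕ) : K) = 2 * ((j : ℕ) : K) := by linear_combination -h
  exact Fin.ext (by exact_mod_cast mul_left_cancel₀ two_ne_zero h')

theorem irredXY (W : Submodule K (Fin (d + 1) → K)) (hX : ∀ w ∈ W, XX K d w ∈ W)
    (hY : ∀ w ∈ W, YY K d w ∈ W) : W = ⊥ ∨ W = ⊤ :=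
  irred_of_basis (Pi.basisFun K (Fin (d + 1))) (XX K d) (YY K d) _ inj_eig
    (fun i => by rw [basisFun_eq]; exact Y_ev i) irrX W hX hY

theorem finrank_eq : Module.finrank K (Fin (d + 1) → K) = d + 1 := by simp

variable [IsAlgClosed K]

/-- a basis adapted to an `sl₂`-triple in the span of `X, Y, Z` -/
theorem good_basis {H E F : Module.End K (Fin (d + 1) → K)} (h1 : H * E - E * H = (2 : K) • E)
    (h2 : H * F - F * H = (-2 : K) • F) (h3 : E * F - F * E = (1 : K) • H)
    {x1 x2 x3 y1 y2 y3 : K} (hX : XX K d = x1 • H + x2 • E + x3 • F)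
    (hY : YY K d = y1 • H + y2 • E + y3 • F) :
    ∃ b : Basis (Fin (d + 1)) K (Fin (d + 1) → K),
      (∀ x a : K, (LinearMap.toMatrix b b (x • 1 + a • H)).IsDiag) ∧
      ∀ x a β γ : K, β ≠ 0 → γ ≠ 0 →
        IrrTri (LinearMap.toMatrix b b (x • 1 + a • H + β • E + γ • F)) := by
  obtain ⟨b, v, hb, hz, hH, hF, hE0, hE⟩ := sl2_basis (finrank_eq (K := K) (d := d)) H E F h1 h2
    (by rw [h3, one_smul]) (fun W hE hF => by
      have hHW : ∀ w ∈ W, H w ∈ W := by
        intro w hw
        have := LinearMap.congr_fun h3 w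
        simp only [LinearMap.sub_apply, Module.End.mul_apply, one_smul] at this
        rw [← this]
        exact W.sub_mem (hE _ (hF _ hw)) (hF _ (hE _ hw))
      refine irredXY W (fun w hw => ?_) (fun w hw => ?_)
      · rw [hX]
        exact W.add_mem (W.add_mem (W.smul_mem _ (hHW w hw)) (W.smul_mem _ (hE w hw)))
          (W.smul_mem _ (hF w hw))
      · rw [hY]
        exact W.add_mem (W.add_mem (W.smul_mem _ (hHW w hw)) (W.smul_mem _ (hE w hw)))
          (W.smul_mem _ (hF w hw)))
  exact ⟨b, fun x a => diag_of_sl2 hb hH x a, fun x a β γ hβ hγ =>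
    irrTri_of_sl2 hb hz hH hF hE0 hE x a β γ hβ hγ⟩

/-- The triples of `sl₂` type. -/
theorem triple_of (x y z s : K) (hy : y ^ 2 ≠ s ^ 2) (hz : z ^ 2 ≠ s ^ 2)
    (hδ : y ^ 2 + z ^ 2 ≠ s ^ 2) :
    LeonardTriple (XX K d) (YY K d) (x • 1 + y • XX K d + z • YY K d + s • ZZ K d) := by
  have hy1 : y - s ≠ 0 := fun h => hy (by rw [sub_eq_zero.1 h])
  have hy2 : y + s ≠ 0 := fun h => hy (by rw [eq_neg_of_add_eq_zero_left h]; ring)
  have hz1 : z - s ≠ 0 := fun h => hz (by rw [sub_eq_zero.1 h])
  have hz2 : z + s ≠ 0 := fun h => hz (by rw [eq_neg_of_add_eq_zero_left h]; ring)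
  obtain ⟨δ, hδ2⟩ := IsAlgClosed.exists_pow_nat_eq (y ^ 2 + z ^ 2 - s ^ 2) (n := 2) two_pos
  have hδ0 : δ ≠ 0 := by
    rintro rfl
    apply hδ
    linear_combination -hδ2
  have C1 := c1 (K := K) (d := d)
  have C2 := c2 (K := K) (d := d)
  have C3 := c3 (K := K) (d := d)
  refine ⟨?_, ?_, ?_⟩
  · -- `H = X`
    set E : Module.End K (Fin (d + 1) → K) := (0 : K) • XX K d + (1 / 2 : K) • YY K d +
      (-1 / 2 : K) • ZZ K d with hE
    set F : Module.End K (Fin (d + 1) → K) := (0 : K) • XX K d + (1 / 2 : K) • YY K d +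
      (1 / 2 : K) • ZZ K d with hF
    have hH : XX K d = (1 : K) • XX K d + (0 : K) • YY K d + (0 : K) • ZZ K d := by module
    obtain ⟨b, hb1, hb2⟩ := good_basis (H := XX K d) (E := E) (F := F)
      (comm_formula' C1 C2 C3 2 hH hE hE (by ring) (by ring) (by ring))
      (comm_formula' C1 C2 C3 (-2) hH hF hF (by ring) (by ring) (by ring))
      (comm_formula' C1 C2 C3 1 hE hF hH (by ring) (by ring) (by ring))
      (x1 := 1) (x2 := 0) (x3 := 0) (y1 := 0) (y2 := 1) (y3 := 1)
      (by rw [hE, hF]; module) (by rw [hE, hF]; module)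
    refine ⟨d + 1, b, ?_, ?_, ?_⟩
    · have := hb1 0 1
      rwa [zero_smul, zero_add, one_smul] at this
    · have := hb2 0 0 1 1 one_ne_zero one_ne_zero
      convert this using 2
      rw [hE, hF]; module
    · have := hb2 x y (z - s) (z + s) hz1 hz2
      convert this using 2
      rw [hE, hF]; module
  · -- `H = Y`
    set E : Module.End K (Fin (d + 1) → K) := (1 / 2 : K) • XX K d + (0 : K) • YY K d +
      (1 / 2 : K) • ZZ K d with hE
    set F : Module.End K (Fin (d + 1) → K) := (1 / 2 : K) • XX K d + (0 : K) • YY K d +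
      (-1 / 2 : K) • ZZ K d with hF
    have hH : YY K d = (0 : K) • XX K d + (1 : K) • YY K d + (0 : K) • ZZ K d := by module
    obtain ⟨b, hb1, hb2⟩ := good_basis (H := YY K d) (E := E) (F := F)
      (comm_formula' C1 C2 C3 2 hH hE hE (by ring) (by ring) (by ring))
      (comm_formula' C1 C2 C3 (-2) hH hF hF (by ring) (by ring) (by ring))
      (comm_formula' C1 C2 C3 1 hE hF hH (by ring) (by ring) (by ring))
      (x1 := 0) (x2 := 1) (x3 := 1) (y1 := 1) (y2 := 0) (y3 := 0)
      (by rw [hE, hF]; module) (by rw [hE, hF]; module)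
    refine ⟨d + 1, b, ?_, ?_, ?_⟩
    · have := hb1 0 1
      rwa [zero_smul, zero_add, one_smul] at this
    · have := hb2 0 0 1 1 one_ne_zero one_ne_zero
      convert this using 2
      rw [hE, hF]; module
    · have := hb2 x z (y + s) (y - s) hy2 hy1
      convert this using 2
      rw [hE, hF]; module
  · -- `H = (C - x) / δ`
    have hκ : z ^ 2 - s ^ 2 ≠ 0 := sub_ne_zero.2 hz
    set H : Module.End K (Fin (d + 1) → K) := (y / δ) • XX K d + (z / δ) • YY K d +
      (s / δ) • ZZ K d with hH
    set E : Module.End K (Fin (d + 1) → K) := (1 / 2 : K) • XX K d +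
      ((s * δ - y * z) / (2 * (z ^ 2 - s ^ 2))) • YY K d +
      ((z * δ - y * s) / (2 * (z ^ 2 - s ^ 2))) • ZZ K d with hE
    set F : Module.End K (Fin (d + 1) → K) := ((z ^ 2 - s ^ 2) / (2 * δ ^ 2)) • XX K d +
      (-(s * δ + y * z) / (2 * δ ^ 2)) • YY K d + (-(y * s + z * δ) / (2 * δ ^ 2)) • ZZ K d with hF
    have hprod : (s * δ - y * z) * (s * δ + y * z) = -((y ^ 2 - s ^ 2) * (z ^ 2 - s ^ 2)) := by
      have : (s * δ - y * z) * (s * δ + y * z) = s ^ 2 * δ ^ 2 - y ^ 2 * z ^ 2 := by ring
      rw [this, hδ2]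
      ring
    have hprod0 : (s * δ - y * z) * (s * δ + y * z) ≠ 0 := by
      rw [hprod]
      exact neg_ne_zero.2 (mul_ne_zero (sub_ne_zero.2 hy) hκ)
    have hp1 := left_ne_zero_of_mul hprod0
    have hp2 := right_ne_zero_of_mul hprod0
    obtain ⟨b, hb1, hb2⟩ := good_basis (H := H) (E := E) (F := F)
      (comm_formula' C1 C2 C3 2 hH hE hE
        (by field_simp; ring) (by field_simp; linear_combination (-s) * hδ2)
        (by field_simp; linear_combination (-z) * hδ2))
      (comm_formula' C1 C2 C3 (-2) hH hF hF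
        (by field_simp; ring) (by field_simp; linear_combination (-s) * hδ2)
        (by field_simp; linear_combination (-z) * hδ2))
      (comm_formula' C1 C2 C3 1 hE hF hH
        (by field_simp; ring) (by field_simp; ring) (by field_simp; ring))
      (x1 := y / δ) (x2 := (z ^ 2 - s ^ 2) / δ ^ 2) (x3 := 1) (y1 := z / δ)
      (y2 := -(y * z + s * δ) / δ ^ 2) (y3 := (s * δ - y * z) / (z ^ 2 - s ^ 2))
      (by
        rw [hH, hE, hF]
        match_scalars <;> field_simp <;> first
          | ring1
          | linear_combination 2 * hδ2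
          | linear_combination (2 * z ^ 2) * hδ2
          | linear_combination (2 * z * s) * hδ2)
      (by
        rw [hH, hE, hF]
        match_scalars <;> field_simp <;> first
          | ring1
          | linear_combination 2 * hδ2
          | linear_combination (2 * z ^ 2) * hδ2
          | linear_combination (2 * z * s) * hδ2)
    refine ⟨d + 1, b, ?_, ?_, ?_⟩
    · have := hb1 x δ
      convert this using 2
      rw [hH]
      match_scalars <;> field_simp
    · have := hb2 0 (y / δ) ((z ^ 2 - s ^ 2) / δ ^ 2) 1 (div_ne_zero hκ (pow_ne_zero _ hδ0))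
        one_ne_zero
      convert this using 2
      rw [hH, hE, hF]
      match_scalars <;> field_simp <;> first
          | ring1
          | linear_combination 2 * hδ2
          | linear_combination (2 * z ^ 2) * hδ2
          | linear_combination (2 * z * s) * hδ2
    · have := hb2 0 (z / δ) (-(y * z + s * δ) / δ ^ 2) ((s * δ - y * z) / (z ^ 2 - s ^ 2))
        (div_ne_zero (neg_ne_zero.2 (by rwa [add_comm])) (pow_ne_zero _ hδ0)) (div_ne_zero hp1 hκ)
      convert this using 2
      rw [hH, hE, hF]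
      match_scalars <;> field_simp <;> first
          | ring1
          | linear_combination 2 * hδ2
          | linear_combination (2 * z ^ 2) * hδ2
          | linear_combination (2 * z * s) * hδ2

end Pair

end Pool.Agent.D0H77
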