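import Pool.Agent.D0H77.Kraw1

/-!
# The Krawtchouk Leonard pair: maps which are tridiagonal in both eigenbases
-/

set_option autoImplicit false

namespace Pool.Agent.D0H77

open Module Matrix

section Normal

variable {K : Type*} [Field K] [CharZero K] {V : Type*} [AddCommGroup V] [Module K V] {d : ℕ}

/-- the action of a tridiagonal map on a basis -/
theorem tri_apply (b : Basis (Fin (d + 1)) K V) (C : Module.End K V)
    (hC : IrrTri (LinearMap.toMatrix b b C)) (i : Fin (d + 1)) (k : Fin (d + 1)) :
    b.repr (C (b i)) k = LinearMap.toMatrix b b C k i := by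
  rw [LinearMap.toMatrix_apply]

theorem repr_diag (b : Basis (Fin (d + 1)) K V) (T : Module.End K V)
    (hT : (LinearMap.toMatrix b b T).IsDiag) (x : V) (i : Fin (d + 1)) :
    b.repr (T x) i = LinearMap.toMatrix b b T i i * b.repr x i := by
  have h := congrFun (LinearMap.toMatrix_mulVec_repr b b T x) i
  rw [← h]
  simp only [Matrix.mulVec, dotProduct]
  rw [Finset.sum_eq_single i]
  · intro j _ hj
    have : LinearMap.toMatrix b b T i j = 0 := hT (Ne.symm hj)
    rw [this, zero_mul]
  · intro h'
    exact absurd (Finset.mem_univ i) h'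

/-- The normal form of the eigenbasis of `T`, if `T` and `S` satisfy
`T²S - 2TST + ST² = 4S` and `S` is irreducible tridiagonal. -/
theorem normal_form (T S C : Module.End K V)
    (hrel : T * (T * S) - (2 : K) • (T * (S * T)) + S * (T * T) = (4 : K) • S)
    (htr : ∀ b : Basis (Fin (d + 1)) K V, ∑ i, LinearMap.toMatrix b b T i i = 0)
    (b : Basis (Fin (d + 1)) K V) (hT : (LinearMap.toMatrix b b T).IsDiag)
    (hS : IrrTri (LinearMap.toMatrix b b S)) (hC : IrrTri (LinearMap.toMatrix b b C))
    (hinj : Function.Injective fun i => LinearMap.toMatrix b b T i i) :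
    ∃ b' : Basis (Fin (d + 1)) K V, (∀ i, T (b' i) = ((d : K) - 2 * (i : ℕ)) • b' i) ∧
      (∀ i, LinearMap.toMatrix b' b' S i i = 0) ∧ IrrTri (LinearMap.toMatrix b' b' S) ∧
      IrrTri (LinearMap.toMatrix b' b' C) := by
  set a : Fin (d + 1) → K := fun i => LinearMap.toMatrix b b T i i with ha
  have hTb := diag_apply b T hT
  have hent : ∀ i j, (a i - a j) ^ 2 * LinearMap.toMatrix b b S i j =
      4 * LinearMap.toMatrix b b S i j := by
    intro i j
    have h := LinearMap.congr_fun hrel (b j)
    simp only [LinearMap.add_apply, LinearMap.sub_apply, LinearMap.smul_apply,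
      Module.End.mul_apply] at h
    have h2 := congrArg (fun x => b.repr x i) h
    simp only [map_add, map_sub, map_smul, Finsupp.add_apply, Finsupp.sub_apply,
      Finsupp.smul_apply, smul_eq_mul, repr_diag b T hT] at h2
    rw [hTb j] at h2
    simp only [map_smul, Finsupp.smul_apply, smul_eq_mul, hTb j, repr_diag b T hT] at h2
    simp only [LinearMap.toMatrix_apply b b S] at *
    rw [← h2]
    ring
  have hdiag : ∀ i, LinearMap.toMatrix b b S i i = 0 := by
    intro i
    have := hent i i
    rw [sub_self] at this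
    have h4 : (4 : K) * LinearMap.toMatrix b b S i i = 0 := by rw [← this]; ring
    exact (mul_eq_zero.1 h4).resolve_left (by norm_num)
  have hstep : ∀ i j : Fin (d + 1), (i : ℕ) + 1 = j → a j = a i + 2 ∨ a j = a i - 2 := by
    intro i j hij
    have h1 := hent i j
    have h2 := (hS i j).2 (Or.inl hij)
    have h3 : (a j - a i - 2) * (a j - a i + 2) = 0 := by
      have := mul_right_cancel₀ h2 h1
      linear_combination this
    rcases mul_eq_zero.1 h3 with h | h
    · left; linear_combination h
    · right; linear_combination h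
  -- arithmetic progression
  obtain ⟨c, hc, hac⟩ : ∃ c : K, (c = 2 ∨ c = -2) ∧ ∀ i : Fin (d + 1), a i = a 0 + c * (i : ℕ) := by
    rcases Nat.eq_zero_or_pos d with rfl | hd
    · refine ⟨2, Or.inl rfl, fun i => ?_⟩
      have h0 : i = 0 := by ext; have := i.2; simp
      rw [h0]
      simp
    · have h01 : ((0 : Fin (d + 1)) : ℕ) + 1 = ((⟨1, by omega⟩ : Fin (d + 1)) : ℕ) := by simp
      obtain ⟨c, hc, h1⟩ : ∃ c : K, (c = 2 ∨ c = -2) ∧ a ⟨1, by omega⟩ = a 0 + c := by
        rcases hstep 0 ⟨1, by omega⟩ h01 with h | h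
        · exact ⟨2, Or.inl rfl, h⟩
        · exact ⟨-2, Or.inr rfl, by rw [h]; ring⟩
      refine ⟨c, hc, ?_⟩
      have key : ∀ n : ℕ, ∀ (h : n + 1 < d + 1), a ⟨n, by omega⟩ = a 0 + c * n ∧
          a ⟨n + 1, h⟩ = a 0 + c * (n + 1 : ℕ) := by
        intro n
        induction n with
        | zero =>
          intro h
          refine ⟨?_, ?_⟩
          · have : (⟨0, by omega⟩ : Fin (d + 1)) = 0 := rfl
            rw [this]; simp
          · rw [h1]; simp
        | succ n ih =>
          intro h
          obtain ⟨h2, h3⟩ := ih (by omega)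
          refine ⟨h3, ?_⟩
          have h4 := hstep ⟨n + 1, by omega⟩ ⟨n + 1 + 1, h⟩ rfl
          have hne : a ⟨n + 1 + 1, h⟩ ≠ a ⟨n, by omega⟩ := fun h5 => by
            have h6 := congrArg Fin.val (hinj h5)
            simp only at h6
            omega
          rw [h2] at hne
          rw [h3] at h4
          push_cast at h4 hne ⊢
          rcases hc with rfl | rfl <;> rcases h4 with h4 | h4
          · rw [h4]; ring
          · exact absurd (by rw [h4]; ring) hne
          · exact absurd (by rw [h4]; ring) hne
          · rw [h4]; ring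
      intro i
      rcases Nat.lt_or_ge ((i : ℕ) + 1) (d + 1) with h | h
      · exact (key i h).1
      · have h2 := (key (i - 1) (by omega)).2
        have h3 : (⟨(i : ℕ) - 1 + 1, by omega⟩ : Fin (d + 1)) = i := Fin.ext (by simp; omega)
        rw [h3] at h2
        rw [h2]
        congr 3
        omega
  have hsum : (2 : K) * a 0 + c * d = 0 := by
    have h1 := htr b
    have h2 : ∑ i : Fin (d + 1), a i = (d + 1) * a 0 + c * ∑ i ∈ Finset.range (d + 1), (i : K) := by
      rw [Finset.sum_congr rfl fun i _ => hac i, Finset.sum_add_distrib, ← Finset.mul_sum,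
        Fin.sum_univ_eq_sum_range (fun i => (i : K)) (d + 1)]
      simp
    have h3 : (∑ i ∈ Finset.range (d + 1), (i : K)) * 2 = (d + 1) * d := by
      have := Finset.sum_range_id_mul_two (d + 1)
      have h4 : (((∑ i ∈ Finset.range (d + 1), i) * 2 : ℕ) : K) = (((d + 1) * (d + 1 - 1) : ℕ) : K) := by
        rw [this]
      simpa using h4
    have h5 : ((d : K) + 1) * (2 * a 0 + c * d) = 0 := by
      have h6 : ∑ i : Fin (d + 1), a i = 0 := h1
      rw [h6] at h2
      linear_combination (-2) * h2 - c * h3
    exact (mul_eq_zero.1 h5).resolve_left (by exact_mod_cast Nat.succ_ne_zero d)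
  rcases hc with rfl | rfl
  · -- reverse the basis
    have hrep : ∀ (T : Module.End K V) (i j : Fin (d + 1)),
        LinearMap.toMatrix (b.reindex Fin.revPerm) (b.reindex Fin.revPerm) T i j =
        LinearMap.toMatrix b b T (Fin.rev i) (Fin.rev j) := by
      intro T i j
      rw [LinearMap.toMatrix_apply, LinearMap.toMatrix_apply, Basis.reindex_apply]
      rfl
    have hirr : ∀ T : Module.End K V, IrrTri (LinearMap.toMatrix b b T) →
        IrrTri (LinearMap.toMatrix (b.reindex Fin.revPerm) (b.reindex Fin.revPerm) T) := by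
      intro T hT i j
      rw [hrep]
      have hi := Fin.val_rev i
      have hj := Fin.val_rev j
      have := i.2
      have := j.2
      refine ⟨fun h => (hT _ _).1 ?_, fun h => (hT _ _).2 ?_⟩
      · rcases h with h | h
        · right; omega
        · left; omega
      · rcases h with h | h
        · right; omega
        · left; omega
    refine ⟨b.reindex Fin.revPerm, fun i => ?_, fun i => by rw [hrep]; exact hdiag _, hirr S hS,
      hirr C hC⟩
    rw [Basis.reindex_apply]
    show T (b (Fin.rev i)) = _ • b (Fin.rev i)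
    rw [hTb]
    congr 1
    show a (Fin.rev i) = _
    rw [hac, Fin.val_rev, Nat.cast_sub (by have := i.2; omega)]
    push_cast
    linear_combination (1 / 2 : K) * hsum
  · refine ⟨b, fun i => ?_, hdiag, hS, hC⟩
    rw [hTb]
    congr 1
    show a i = _
    rw [hac]
    linear_combination (1 / 2 : K) * hsum

end Normal

section Coord

variable {K : Type*} [Field K] [CharZero K] {d : ℕ}

theorem trace_X (b : Basis (Fin (d + 1)) K (Fin (d + 1) → K)) :
    ∑ i, LinearMap.toMatrix b b (XX K d) i i = 0 := by
  have h1 : ∑ i, LinearMap.toMatrix b b (XX K d) i i = (LinearMap.toMatrix b b (XX K d)).trace := rfl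
  rw [h1, ← LinearMap.trace_eq_matrix_trace, XX, Matrix.trace_toLin'_eq]
  simp only [Matrix.trace, Matrix.diag, matA, Matrix.of_apply]
  exact Finset.sum_eq_zero fun i _ => by rw [if_neg (by omega), if_neg (by omega)]

theorem trace_Y (b : Basis (Fin (d + 1)) K (Fin (d + 1) → K)) :
    ∑ i, LinearMap.toMatrix b b (YY K d) i i = 0 := by
  have h1 : ∑ i, LinearMap.toMatrix b b (YY K d) i i = (LinearMap.toMatrix b b (YY K d)).trace := rfl
  rw [h1, ← LinearMap.trace_eq_matrix_trace, YY, Matrix.trace_toLin'_eq]
  simp only [Matrix.trace, Matrix.diag, matB, Matrix.diagonal_apply_eq]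
  rw [Finset.sum_sub_distrib, ← Finset.mul_sum,
        Fin.sum_univ_eq_sum_range (fun i => (i : K)) (d + 1)]
  have h3 : (∑ i ∈ Finset.range (d + 1), (i : K)) * 2 = (d + 1) * d := by
    have := Finset.sum_range_id_mul_two (d + 1)
    have h4 : (((∑ i ∈ Finset.range (d + 1), i) * 2 : ℕ) : K) = (((d + 1) * (d + 1 - 1) : ℕ) : K) := by
      rw [this]
    simpa using h4
  rw [mul_comm, h3]
  simp

end Coord

end Pool.Agent.D0H77
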