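import Pool.Agent.D0H77.Kraw2

/-!
# The Krawtchouk Leonard pair: the form of a map which is tridiagonal in both eigenbases
-/

set_option autoImplicit false

namespace Pool.Agent.D0H77

open Module Matrix

section Rows

variable {K : Type*} [Field K] {d : ℕ}

/-- rows of a tridiagonal matrix -/
theorem tri_row (M : Matrix (Fin (d + 1)) (Fin (d + 1)) K)
    (hM : ∀ i j : Fin (d + 1), ((i : ℕ) + 1 < j ∨ (j : ℕ) + 1 < i) → M i j = 0) :
    ∃ lo up : ℕ → K, lo 0 = 0 ∧ up d = 0 ∧
      (∀ i j : Fin (d + 1), (j : ℕ) + 1 = i → M i j = lo i) ∧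
      (∀ i j : Fin (d + 1), (i : ℕ) + 1 = j → M i j = up i) ∧
      ∀ (i : Fin (d + 1)) (v : ℕ → K) (wm wp : K), (∀ j, j + 1 = (i : ℕ) → v j = wm) →
        (∀ j, (i : ℕ) + 1 = j → v j = wp) →
        (M *ᵥ fun j : Fin (d + 1) => v j) i = lo i * wm + M i i * v i + up i * wp := by
  classical
  refine ⟨fun i => if h : 0 < i ∧ i < d + 1 then M ⟨i, h.2⟩ ⟨i - 1, by omega⟩ else 0,
    fun i => if h : i + 1 < d + 1 then M ⟨i, by omega⟩ ⟨i + 1, h⟩ else 0, ?_, ?_, ?_, ?_, ?_⟩
  · simp
  · simp
  · intro i j hij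
    have hi := i.2
    have h : 0 < (i : ℕ) ∧ (i : ℕ) < d + 1 := ⟨by omega, i.2⟩
    simp only [dif_pos h]
    congr 1
    ext
    simp only
    omega
  · intro i j hij
    have hj := j.2
    have h : (i : ℕ) + 1 < d + 1 := by omega
    simp only [dif_pos h]
    congr 1
    ext
    simp only
    omega
  · intro i v wm wp h1 h2
    have hi := i.2
    set L : K := if h : 0 < (i : ℕ) ∧ (i : ℕ) < d + 1 then M ⟨i, h.2⟩ ⟨(i : ℕ) - 1, by omega⟩ else 0
      with hL
    set U : K := if h : (i : ℕ) + 1 < d + 1 then M ⟨i, by omega⟩ ⟨(i : ℕ) + 1, h⟩ else 0 with hU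
    have hterm : ∀ j : Fin (d + 1), M i j * v j = (if (j : ℕ) + 1 = i then L * wm else 0) +
        (if j = i then M i i * v i else 0) + (if (i : ℕ) + 1 = j then U * wp else 0) := by
      intro j
      have hj := j.2
      by_cases e1 : (j : ℕ) + 1 = i
      · have h : 0 < (i : ℕ) ∧ (i : ℕ) < d + 1 := ⟨by omega, i.2⟩
        rw [if_pos e1, if_neg (by intro h'; rw [h'] at e1; omega), if_neg (by omega), hL,
          dif_pos h, h1 _ e1, add_zero, add_zero]
        congr 2
        ext
        simp only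
        omega
      · by_cases e2 : j = i
        · rw [if_neg e1, if_pos e2, if_neg (by rw [e2]; omega), e2]
          ring
        · by_cases e3 : (i : ℕ) + 1 = j
          · have h : (i : ℕ) + 1 < d + 1 := by omega
            rw [if_neg e1, if_neg e2, if_pos e3, hU, dif_pos h, h2 _ e3, zero_add, zero_add]
            congr 2
            ext
            simp only
            omega
          · have e4 : (j : ℕ) ≠ i := fun h => e2 (Fin.ext h)
            rw [if_neg e1, if_neg e2, if_neg e3, hM i j (by omega)]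
            ring
    have hs1 : ∑ j : Fin (d + 1), (if (j : ℕ) + 1 = i then L * wm else 0) = L * wm := by
      rcases Nat.eq_zero_or_pos (i : ℕ) with h0 | h0
      · have hL0 : L = 0 := by rw [hL, dif_neg (by omega)]
        rw [hL0, zero_mul]
        simp
      · rw [Finset.sum_eq_single (⟨(i : ℕ) - 1, by omega⟩ : Fin (d + 1))]
        · rw [if_pos (by simp only; omega)]
        · intro j _ hj
          rw [if_neg]
          intro h'
          exact hj (Fin.ext (by simp only; omega))
        · intro h'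
          exact absurd (Finset.mem_univ _) h'
    have hs2 : ∑ j : Fin (d + 1), (if j = i then M i i * v i else 0) = M i i * v i := by
      rw [Finset.sum_ite_eq' Finset.univ i, if_pos (Finset.mem_univ _)]
    have hs3 : ∑ j : Fin (d + 1), (if (i : ℕ) + 1 = j then U * wp else 0) = U * wp := by
      rcases Nat.lt_or_ge ((i : ℕ) + 1) (d + 1) with h0 | h0
      · rw [Finset.sum_eq_single (⟨(i : ℕ) + 1, h0⟩ : Fin (d + 1))]
        · rw [if_pos rfl]
        · intro j _ hj
          rw [if_neg]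
          intro h'
          exact hj (Fin.ext (by simp only; omega))
        · intro h'
          exact absurd (Finset.mem_univ _) h'
      · have hU0 : U = 0 := by rw [hU, dif_neg (by omega)]
        rw [hU0, zero_mul]
        simp
    show ∑ j, M i j * v j = _
    rw [Finset.sum_congr rfl fun j _ => hterm j, Finset.sum_add_distrib, Finset.sum_add_distrib,
      hs1, hs2, hs3]

end Rows

section Form

variable {K : Type*} [Field K] [CharZero K] {d : ℕ}

/-- the vector of ones -/
def one' (K : Type*) [Field K] (d : ℕ) : Fin (d + 1) → K := fun _ => 1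

/-- the vector with alternating entries -/
def alt (K : Type*) [Field K] (d : ℕ) : Fin (d + 1) → K := fun i => (-1) ^ (i : ℕ)

theorem matA_tri (i j : Fin (d + 1)) (h : (i : ℕ) + 1 < j ∨ (j : ℕ) + 1 < i) : matA K d i j = 0 := by
  simp only [matA, Matrix.of_apply]
  rw [if_neg (by omega), if_neg (by omega)]

theorem matA_row (i : Fin (d + 1)) (v : ℕ → K) (wm wp : K) (h1 : ∀ j, j + 1 = (i : ℕ) → v j = wm)
    (h2 : ∀ j, (i : ℕ) + 1 = j → v j = wp) :
    (matA K d *ᵥ fun j : Fin (d + 1) => v j) i = (i : ℕ) * wm + ((d : K) - (i : ℕ)) * wp := by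
  obtain ⟨lo, up, l0, ud, hlo, hup, hrow⟩ := tri_row (matA K d) matA_tri
  rw [hrow i v wm wp h1 h2]
  have hi := i.2
  have e1 : lo i = (i : ℕ) := by
    rcases Nat.eq_zero_or_pos (i : ℕ) with h0 | h0
    · rw [h0, l0]; simp
    · rw [← hlo i ⟨(i : ℕ) - 1, by omega⟩ (by simp only; omega)]
      simp only [matA, Matrix.of_apply]
      rw [if_neg (by omega), if_pos (by omega)]
      have : (((i : ℕ) - 1 : ℕ) : K) + 1 = (((i : ℕ) - 1 + 1 : ℕ) : K) := by push_cast; ring
      rw [this]
      congr 1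
      omega
  have e2 : up i = (d : K) - (i : ℕ) := by
    rcases Nat.lt_or_ge ((i : ℕ) + 1) (d + 1) with h0 | h0
    · rw [← hup i ⟨(i : ℕ) + 1, h0⟩ rfl]
      simp only [matA, Matrix.of_apply, if_true]
    · have : (i : ℕ) = d := by omega
      rw [this, ud, sub_self]
  have e3 : matA K d i i = 0 := by
    simp only [matA, Matrix.of_apply]
    rw [if_neg (by omega), if_neg (by omega)]
  rw [e1, e2, e3]
  ring

theorem X_one : XX K d (one' K d) = (d : K) • one' K d := by
  ext i
  have := matA_row (K := K) i (fun _ => 1) 1 1 (fun _ _ => rfl) (fun _ _ => rfl)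
  show (matA K d *ᵥ fun j : Fin (d + 1) => 1) i = _
  rw [this]
  simp [one']

theorem X_alt : XX K d (alt K d) = (-d : K) • alt K d := by
  ext i
  have := matA_row (K := K) i (fun j => (-1) ^ j) (-(-1) ^ (i : ℕ)) (-(-1) ^ (i : ℕ))
    (fun j hj => by rw [← hj, pow_succ]; ring) (fun j hj => by rw [← hj, pow_succ]; ring)
  show (matA K d *ᵥ fun j : Fin (d + 1) => (-1) ^ (j : ℕ)) i = _
  rw [this]
  simp [alt]
  ring

theorem Y_apply (v : Fin (d + 1) → K) (i : Fin (d + 1)) :
    YY K d v i = ((d : K) - 2 * (i : ℕ)) * v i := by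
  show (matB K d *ᵥ v) i = _
  rw [matB, Matrix.mulVec_diagonal]

/-- a vector whose `X`-eigenvalue is `d - 2k` is a multiple of the `k`-th basis vector -/
theorem eig_mult {V : Type*} [AddCommGroup V] [Module K V] (b : Basis (Fin (d + 1)) K V)
    (T : Module.End K V) (hT : ∀ i, T (b i) = ((d : K) - 2 * (i : ℕ)) • b i) (k : Fin (d + 1))
    (o : V) (ho : T o = ((d : K) - 2 * (k : ℕ)) • o) : o = b.repr o k • b k := by
  have h1 : ∀ i, i ≠ k → b.repr o i = 0 := by
    intro i hi
    have h2 : b.repr (T o) i = ((d : K) - 2 * (i : ℕ)) * b.repr o i := by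
      conv_lhs => rw [← b.sum_repr o]
      rw [map_sum, map_sum, Finsupp.finset_sum_apply, Finset.sum_eq_single i]
      · rw [map_smul, hT, map_smul, map_smul, b.repr_self, Finsupp.smul_apply, Finsupp.smul_apply,
          Finsupp.single_eq_same]
        simp [mul_comm]
      · intro j _ hj
        rw [map_smul, hT, map_smul, map_smul, b.repr_self, Finsupp.smul_apply, Finsupp.smul_apply,
          Finsupp.single_eq_of_ne (Ne.symm hj)]
        simp
      · intro h'
        exact absurd (Finset.mem_univ i) h'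
    rw [ho, map_smul, Finsupp.smul_apply, smul_eq_mul] at h2
    have h3 : ((2 : K) * ((i : ℕ) - (k : ℕ))) * b.repr o i = 0 := by linear_combination h2
    rcases mul_eq_zero.1 h3 with h | h
    · rcases mul_eq_zero.1 h with h | h
      · exact absurd h two_ne_zero
      · exact absurd (Fin.ext (by exact_mod_cast sub_eq_zero.1 h)) hi
    · exact h
  conv_lhs => rw [← b.sum_repr o]
  rw [Finset.sum_eq_single k]
  · intro j _ hj
    rw [h1 j hj, zero_smul]
  · intro h'
    exact absurd (Finset.mem_univ k) h'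

theorem claimA {V : Type*} [AddCommGroup V] [Module K V] (hd : 1 ≤ d)
    (b : Basis (Fin (d + 1)) K V) (S C : Module.End K V)
    (hS0 : ∀ i, LinearMap.toMatrix b b S i i = 0) (hS : IrrTri (LinearMap.toMatrix b b S))
    (hC : IrrTri (LinearMap.toMatrix b b C)) :
    ∃ α β : K, β ≠ 0 ∧ C (b 0) = α • b 0 + β • S (b 0) := by
  have h1 : 1 < d + 1 := by omega
  set e : Fin (d + 1) := ⟨1, h1⟩ with he
  have hSe := (hS e 0).2 (Or.inr (by simp [he]))
  have hCe := (hC e 0).2 (Or.inr (by simp [he]))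
  refine ⟨LinearMap.toMatrix b b C 0 0,
    LinearMap.toMatrix b b C e 0 / LinearMap.toMatrix b b S e 0, div_ne_zero hCe hSe, ?_⟩
  apply b.repr.injective
  ext i
  rw [map_add, map_smul, map_smul, b.repr_self, Finsupp.add_apply, Finsupp.smul_apply,
    Finsupp.smul_apply, ← LinearMap.toMatrix_apply b b C i 0, ← LinearMap.toMatrix_apply b b S i 0]
  by_cases e0 : i = 0
  · rw [e0, Finsupp.single_eq_same, hS0]; simp
  · have hi0 : (i : ℕ) ≠ 0 := fun h => e0 (Fin.ext h)
    rw [Finsupp.single_eq_of_ne e0]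
    by_cases e1 : i = e
    · rw [e1, smul_zero, zero_add, smul_eq_mul, div_mul_cancel₀ _ hSe]
    · have hi1 : (i : ℕ) ≠ 1 := fun h => e1 (Fin.ext h)
      have h3 : (i : ℕ) + 1 < ((0 : Fin (d + 1)) : ℕ) ∨ ((0 : Fin (d + 1)) : ℕ) + 1 < (i : ℕ) := by
        right; simp; omega
      rw [(hS i 0).1 h3, (hC i 0).1 h3]
      simp

theorem claimD {V : Type*} [AddCommGroup V] [Module K V] (hd : 1 ≤ d)
    (b : Basis (Fin (d + 1)) K V) (S C : Module.End K V)
    (hS0 : ∀ i, LinearMap.toMatrix b b S i i = 0) (hS : IrrTri (LinearMap.toMatrix b b S))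
    (hC : IrrTri (LinearMap.toMatrix b b C)) :
    ∃ α β : K, β ≠ 0 ∧ C (b (Fin.last d)) = α • b (Fin.last d) + β • S (b (Fin.last d)) := by
  have h1 : d - 1 < d + 1 := by omega
  set e : Fin (d + 1) := ⟨d - 1, h1⟩ with he
  set l : Fin (d + 1) := Fin.last d with hl
  have hlv : (l : ℕ) = d := rfl
  have hSe := (hS e l).2 (Or.inl (by simp only [he, hlv]; omega))
  have hCe := (hC e l).2 (Or.inl (by simp only [he, hlv]; omega))
  refine ⟨LinearMap.toMatrix b b C l l,
    LinearMap.toMatrix b b C e l / LinearMap.toMatrix b b S e l, div_ne_zero hCe hSe, ?_⟩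
  apply b.repr.injective
  ext i
  rw [map_add, map_smul, map_smul, b.repr_self, Finsupp.add_apply, Finsupp.smul_apply,
    Finsupp.smul_apply, ← LinearMap.toMatrix_apply b b C i l, ← LinearMap.toMatrix_apply b b S i l]
  by_cases e0 : i = l
  · rw [e0, Finsupp.single_eq_same, hS0]; simp
  · have hi0 : (i : ℕ) ≠ d := fun h => e0 (Fin.ext h)
    rw [Finsupp.single_eq_of_ne e0]
    by_cases e1 : i = e
    · rw [e1, smul_zero, zero_add, smul_eq_mul, div_mul_cancel₀ _ hSe]
    · have hi1 : (i : ℕ) ≠ d - 1 := fun h => e1 (Fin.ext h)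
      have hi := i.2
      have h3 : (i : ℕ) + 1 < (l : ℕ) ∨ (l : ℕ) + 1 < (i : ℕ) := by
        left; omega
      rw [(hS i l).1 h3, (hC i l).1 h3]
      simp

theorem claimB {V : Type*} [AddCommGroup V] [Module K V] (hd : 1 ≤ d)
    (b : Basis (Fin (d + 1)) K V) (S C : Module.End K V)
    (hS0 : ∀ i, LinearMap.toMatrix b b S i i = 0) (hS : IrrTri (LinearMap.toMatrix b b S))
    (hC : IrrTri (LinearMap.toMatrix b b C)) :
    ∃ u v w : K, C (b ⟨1, by omega⟩) = u • b 0 + v • b ⟨1, by omega⟩ + w • S (b ⟨1, by omega⟩) := by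
  have h1 : 1 < d + 1 := by omega
  set e : Fin (d + 1) := ⟨1, h1⟩ with he
  obtain ⟨w, hw⟩ : ∃ w : K, ∀ i : Fin (d + 1), (i : ℕ) = 2 →
      LinearMap.toMatrix b b C i e = w * LinearMap.toMatrix b b S i e := by
    by_cases h2 : 2 < d + 1
    · have hSe := (hS ⟨2, h2⟩ e).2 (Or.inr (by simp [he]))
      refine ⟨LinearMap.toMatrix b b C ⟨2, h2⟩ e / LinearMap.toMatrix b b S ⟨2, h2⟩ e, ?_⟩
      intro i hi
      have : i = ⟨2, h2⟩ := Fin.ext hi
      rw [this, div_mul_cancel₀ _ hSe]
    · exact ⟨0, fun i hi => absurd i.2 (by omega)⟩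
  refine ⟨LinearMap.toMatrix b b C 0 e - w * LinearMap.toMatrix b b S 0 e,
    LinearMap.toMatrix b b C e e, w, ?_⟩
  apply b.repr.injective
  ext i
  rw [map_add, map_add, map_smul, map_smul, map_smul, b.repr_self, b.repr_self, Finsupp.add_apply,
    Finsupp.add_apply, Finsupp.smul_apply, Finsupp.smul_apply,
    Finsupp.smul_apply, ← LinearMap.toMatrix_apply b b C i e, ← LinearMap.toMatrix_apply b b S i e]
  by_cases e0 : i = 0
  · have : (0 : Fin (d + 1)) ≠ e := fun h => by have := congrArg Fin.val h; simp [he] at this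
    rw [e0, Finsupp.single_eq_same, Finsupp.single_eq_of_ne this]
    simp
  · have hi0 : (i : ℕ) ≠ 0 := fun h => e0 (Fin.ext h)
    rw [Finsupp.single_eq_of_ne e0]
    by_cases e1 : i = e
    · rw [e1, Finsupp.single_eq_same, hS0]; simp
    · have hi1 : (i : ℕ) ≠ 1 := fun h => e1 (Fin.ext h)
      rw [Finsupp.single_eq_of_ne e1]
      by_cases e2 : (i : ℕ) = 2
      · rw [hw i e2]; simp
      · have h3 : (i : ℕ) + 1 < (e : ℕ) ∨ (e : ℕ) + 1 < (i : ℕ) := by
          right; simp only [he]; omega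
        rw [(hS i e).1 h3, (hC i e).1 h3]
        simp

theorem claimY {V : Type*} [AddCommGroup V] [Module K V] (hd : 1 ≤ d)
    (b : Basis (Fin (d + 1)) K V) (S : Module.End K V)
    (hS0 : ∀ i, LinearMap.toMatrix b b S i i = 0) (hS : IrrTri (LinearMap.toMatrix b b S)) :
    ∃ γ : K, γ ≠ 0 ∧ S (b 0) = γ • b ⟨1, by omega⟩ := by
  have h1 : 1 < d + 1 := by omega
  set e : Fin (d + 1) := ⟨1, h1⟩ with he
  have hSe := (hS e 0).2 (Or.inr (by simp [he]))
  refine ⟨LinearMap.toMatrix b b S e 0, hSe, ?_⟩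
  apply b.repr.injective
  ext i
  rw [map_smul, b.repr_self, Finsupp.smul_apply, ← LinearMap.toMatrix_apply b b S i 0]
  by_cases e0 : i = 0
  · have : (0 : Fin (d + 1)) ≠ e := fun h => by have := congrArg Fin.val h; simp [he] at this
    rw [e0, hS0, Finsupp.single_eq_of_ne this]; simp
  · have hi0 : (i : ℕ) ≠ 0 := fun h => e0 (Fin.ext h)
    by_cases e1 : i = e
    · rw [e1, Finsupp.single_eq_same]; simp
    · have hi1 : (i : ℕ) ≠ 1 := fun h => e1 (Fin.ext h)
      rw [Finsupp.single_eq_of_ne e1]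
      have h3 : (i : ℕ) + 1 < ((0 : Fin (d + 1)) : ℕ) ∨ ((0 : Fin (d + 1)) : ℕ) + 1 < (i : ℕ) := by
        right; simp; omega
      rw [(hS i 0).1 h3]
      simp

theorem end_ext' {S T : Module.End K (Fin (d + 1) → K)}
    (h : ∀ j i : Fin (d + 1), S (ev K d j) i = T (ev K d j) i) : S = T := by
  refine (Pi.basisFun K (Fin (d + 1))).ext fun i => ?_
  rw [basisFun_eq]
  exact funext fun k => h i k

theorem entries (x y z s t : K) (i j : Fin (d + 1)) :
    (x • 1 + y • XX K d + z • YY K d + s • ZZ K d +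
        t • (XX K d * YY K d + YY K d * XX K d) : Module.End K (Fin (d + 1) → K)) (ev K d j) i =
      (x + z * ((d : K) - 2 * (j : ℕ))) * (if (i : ℕ) = j then 1 else 0) +
      (y - s * ((i : ℕ) - (j : ℕ)) + 2 * t * (d - (i : ℕ) - (j : ℕ))) * matA K d i j := by
  have h1 : XX K d (ev K d j) i = matA K d i j := mulVec_ev _ _ _
  have h2 : YY K d (ev K d j) i = ((d : K) - 2 * (j : ℕ)) * (if (i : ℕ) = j then 1 else 0) := by
    rw [Y_ev]
    rfl
  have h3 : XX K d (YY K d (ev K d j)) i = ((d : K) - 2 * (j : ℕ)) * matA K d i j := by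
    rw [Y_ev, map_smul, Pi.smul_apply, h1]
    rfl
  have h4 : YY K d (XX K d (ev K d j)) i = ((d : K) - 2 * (i : ℕ)) * matA K d i j := by
    rw [Y_apply, h1]
  have h5 : ev K d j i = (if (i : ℕ) = j then 1 else 0) := rfl
  simp only [LinearMap.add_apply, LinearMap.smul_apply, Pi.add_apply, Pi.smul_apply,
    Module.End.one_apply, Module.End.mul_apply, ZZ, LinearMap.sub_apply, Pi.sub_apply, smul_eq_mul]
  rw [h1, h2, h3, h4, h5]
  field_simp
  ring

theorem form (hd : 1 ≤ d) (C : Module.End K (Fin (d + 1) → K))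
    (M : Matrix (Fin (d + 1)) (Fin (d + 1)) K) (hCM : C = Matrix.toLin' M)
    (hM : ∀ i j : Fin (d + 1), ((i : ℕ) + 1 < j ∨ (j : ℕ) + 1 < i) → M i j = 0)
    (b : Basis (Fin (d + 1)) K (Fin (d + 1) → K))
    (hX : ∀ i, XX K d (b i) = ((d : K) - 2 * (i : ℕ)) • b i)
    (hY0 : ∀ i, LinearMap.toMatrix b b (YY K d) i i = 0)
    (hY : IrrTri (LinearMap.toMatrix b b (YY K d))) (hC : IrrTri (LinearMap.toMatrix b b C)) :
    ∃ x y z s t : K, C = x • 1 + y • XX K d + z • YY K d + s • ZZ K d +
        t • (XX K d * YY K d + YY K d * XX K d) ∧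
      z + s + 2 * (d - 1) * t ≠ 0 ∧ z - s - 2 * (d - 1) * t ≠ 0 := by
  -- the three relations
  have hone : one' K d = b.repr (one' K d) 0 • b 0 := by
    refine eig_mult b (XX K d) hX 0 _ ?_
    rw [X_one]; simp
  have halt : alt K d = b.repr (alt K d) (Fin.last d) • b (Fin.last d) := by
    refine eig_mult b (XX K d) hX (Fin.last d) _ ?_
    rw [X_alt, Fin.val_last]
    congr 1
    ring
  set r0 := b.repr (one' K d) 0 with hr0
  set rd := b.repr (alt K d) (Fin.last d) with hrd
  obtain ⟨α, β, hβ, hA⟩ := claimA hd b (YY K d) C hY0 hY hC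
  obtain ⟨α', β', hβ', hD⟩ := claimD hd b (YY K d) C hY0 hY hC
  obtain ⟨u, q, r, hB⟩ := claimB hd b (YY K d) C hY0 hY hC
  obtain ⟨γ, hγ, hYb⟩ := claimY hd b (YY K d) hY0 hY
  have hr00 : r0 ≠ 0 := fun h => by
    rw [h, zero_smul] at hone
    exact one_ne_zero (congrFun hone 0)
  have R1 : C (one' K d) = α • one' K d + β • YY K d (one' K d) := by
    rw [hone]
    simp only [map_smul, hA]
    module
  have R3 : C (alt K d) = α' • alt K d + β' • YY K d (alt K d) := by
    rw [halt]
    simp only [map_smul, hD]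
    module
  obtain ⟨p, hp⟩ : ∃ p : K, p * r0 = u * r0 * γ := ⟨u * γ, by ring⟩
  have R2 : C (YY K d (one' K d)) = p • one' K d + q • YY K d (one' K d) +
      r • YY K d (YY K d (one' K d)) := by
    rw [hone]
    simp only [map_smul, hYb, hB]
    match_scalars
    · linear_combination (-1 : K) * hp
    · ring
    · ring
  -- rows
  obtain ⟨lo, up, l0, ud, hlo, hup, hrow⟩ := tri_row M hM
  have E1 : ∀ i : Fin (d + 1), lo i + M i i + up i = α + β * ((d : K) - 2 * (i : ℕ)) := by
    intro i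
    have h1 := congrFun R1 i
    have h2 := hrow i (fun _ => 1) 1 1 (fun _ _ => rfl) (fun _ _ => rfl)
    have h3 : C (one' K d) i = (M *ᵥ fun j : Fin (d + 1) => 1) i := by rw [hCM]; rfl
    rw [h3, h2] at h1
    simp only [Pi.add_apply, Pi.smul_apply, Y_apply, smul_eq_mul, one'] at h1
    linear_combination h1
  have E2 : ∀ i : Fin (d + 1), lo i * ((d : K) - 2 * (i : ℕ) + 2) + M i i * ((d : K) - 2 * (i : ℕ)) +
      up i * ((d : K) - 2 * (i : ℕ) - 2) = p + q * ((d : K) - 2 * (i : ℕ)) +
        r * ((d : K) - 2 * (i : ℕ)) ^ 2 := by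
    intro i
    have h1 := congrFun R2 i
    have h2 := hrow i (fun j => (d : K) - 2 * (j : ℕ)) ((d : K) - 2 * (i : ℕ) + 2)
      ((d : K) - 2 * (i : ℕ) - 2) (fun j hj => by rw [← hj]; push_cast; ring)
      (fun j hj => by rw [← hj]; push_cast; ring)
    have h3 : C (YY K d (one' K d)) i = (M *ᵥ fun j : Fin (d + 1) => (d : K) - 2 * (j : ℕ)) i := by
      have : YY K d (one' K d) = fun j : Fin (d + 1) => (d : K) - 2 * (j : ℕ) := by
        ext j
        rw [Y_apply]
        simp [one']
      rw [this, hCM]; rfl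
    rw [h3, h2] at h1
    simp only [Pi.add_apply, Pi.smul_apply, Y_apply, smul_eq_mul, one'] at h1
    linear_combination h1
  have E3 : ∀ i : Fin (d + 1), -lo i + M i i - up i = α' + β' * ((d : K) - 2 * (i : ℕ)) := by
    intro i
    have h1 := congrFun R3 i
    have h2 := hrow i (fun j => (-1) ^ j) (-(-1) ^ (i : ℕ)) (-(-1) ^ (i : ℕ))
      (fun j hj => by rw [← hj, pow_succ]; ring) (fun j hj => by rw [← hj, pow_succ]; ring)
    have h3 : C (alt K d) i = (M *ᵥ fun j : Fin (d + 1) => (-1) ^ (j : ℕ)) i := by rw [hCM]; rfl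
    rw [h3, h2] at h1
    simp only [Pi.add_apply, Pi.smul_apply, Y_apply, smul_eq_mul, alt] at h1
    have h4 : ((-1 : K) ^ (i : ℕ)) ≠ 0 := pow_ne_zero _ (by norm_num)
    apply mul_left_cancel₀ h4
    linear_combination h1
  have hdi : ∀ i : Fin (d + 1), M i i = (α + α') / 2 + (β + β') / 2 * ((d : K) - 2 * (i : ℕ)) := by
    intro i
    linear_combination (1 / 2 : K) * E1 i + (1 / 2 : K) * E3 i
  have h4lo : ∀ i : Fin (d + 1), 4 * lo i = (α - α') + (β - β') * ((d : K) - 2 * (i : ℕ)) + p +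
      (q - α) * ((d : K) - 2 * (i : ℕ)) + (r - β) * ((d : K) - 2 * (i : ℕ)) ^ 2 := by
    intro i
    linear_combination (1 - ((d : K) - 2 * (i : ℕ))) * E1 i - E3 i + E2 i
  have h4up : ∀ i : Fin (d + 1), 4 * up i = (α - α') + (β - β') * ((d : K) - 2 * (i : ℕ)) - p -
      (q - α) * ((d : K) - 2 * (i : ℕ)) - (r - β) * ((d : K) - 2 * (i : ℕ)) ^ 2 := by
    intro i
    linear_combination (1 + ((d : K) - 2 * (i : ℕ))) * E1 i - E3 i - E2 i
  have F1 := h4lo 0
  have F2 := h4up (Fin.last d)
  rw [Fin.val_last, ud] at F2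
  rw [Fin.val_zero, l0] at F1
  push_cast at F1 F2
  refine ⟨(α + α') / 2, (α - q) / 2, (β + β') / 2, (β - β') / 2 - 2 * ((β - r) / 4) * (d - 1),
    (β - r) / 4, ?_, ?_, ?_⟩
  · refine end_ext' fun j i => ?_
    rw [entries, hCM, Matrix.toLin'_apply, mulVec_ev]
    have hi := i.2
    have hj := j.2
    by_cases e1 : (i : ℕ) = j
    · have : i = j := Fin.ext e1
      rw [this, if_pos rfl, hdi j]
      have : matA K d j j = 0 := by
        simp only [matA, Matrix.of_apply]
        rw [if_neg (by omega), if_neg (by omega)]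
      rw [this]
      ring
    · rw [if_neg e1]
      by_cases e2 : (j : ℕ) + 1 = i
      · have h1 : matA K d i j = (i : ℕ) := by
          simp only [matA, Matrix.of_apply]
          rw [if_neg (by omega), if_pos (by omega), ← e2]
          push_cast; ring
        rw [h1, hlo i j e2]
        have h2 := h4lo i
        have h3 : ((i : ℕ) : K) = (j : ℕ) + 1 := by rw [← e2]; push_cast; ring
        rw [h3] at h2 ⊢
        linear_combination (1 / 4 : K) * h2 - (1 / 4 : K) * F1
      · by_cases e3 : (i : ℕ) + 1 = j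
        · have h1 : matA K d i j = (d : K) - (i : ℕ) := by
            simp only [matA, Matrix.of_apply]
            rw [if_pos (by omega)]
          rw [h1, hup i j e3]
          have h2 := h4up i
          have h3 : ((j : ℕ) : K) = (i : ℕ) + 1 := by rw [← e3]; push_cast; ring
          rw [h3]
          linear_combination (1 / 4 : K) * h2 - (1 / 4 : K) * F2
        · rw [hM i j (by omega), matA_tri i j (by omega)]
          ring
  · convert hβ using 1; ring
  · convert hβ' using 1; ring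

end Form

end Pool.Agent.D0H77
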