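import Pool.Agent.D0H77.Kraw3

/-!
# The Krawtchouk Leonard pair: necessary conditions
-/

set_option autoImplicit false

namespace Pool.Agent.D0H77

open Module Matrix

section Band

variable {K : Type*} [Field K] {n : ℕ}

/-- upper bandwidth -/
def Band (m : ℕ) (P : Matrix (Fin n) (Fin n) K) : Prop := ∀ i j : Fin n, (i : ℕ) + m < j → P i j = 0

theorem Band.mul {m k : ℕ} {P Q : Matrix (Fin n) (Fin n) K} (hP : Band m P) (hQ : Band k Q) :
    Band (m + k) (P * Q) := by
  intro i j hij
  rw [Matrix.mul_apply]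
  refine Finset.sum_eq_zero fun l _ => ?_
  rcases Nat.lt_or_ge ((i : ℕ) + m) l with h | h
  · rw [hP i l h, zero_mul]
  · rw [hQ l j (by omega), mul_zero]

theorem Band.mul_apply {m k : ℕ} {P Q : Matrix (Fin n) (Fin n) K} (hP : Band m P) (hQ : Band k Q)
    (i l j : Fin n) (hl : (l : ℕ) = i + m) (hj : (j : ℕ) = l + k) :
    (P * Q) i j = P i l * Q l j := by
  rw [Matrix.mul_apply, Finset.sum_eq_single l]
  · intro l' _ hl'
    rcases Nat.lt_or_ge ((i : ℕ) + m) l' with h | h
    · rw [hP i l' h, zero_mul]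
    · have : (l' : ℕ) ≠ l := fun h' => hl' (Fin.ext h')
      rw [hQ l' j (by omega), mul_zero]
  · intro h'
    exact absurd (Finset.mem_univ _) h'

theorem band_of_irr {P : Matrix (Fin n) (Fin n) K} (hP : IrrTri P) : Band 1 P :=
  fun i j h => (hP i j).1 (Or.inl h)

end Band

section Nec

variable {K : Type*} [Field K] [CharZero K] {d : ℕ}

/-- the matrix of a map which is irreducible tridiagonal in some eigenbasis of `Y` -/
theorem irr_std (C : Module.End K (Fin (d + 1) → K)) (b : Basis (Fin (d + 1)) K (Fin (d + 1) → K))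
    (hb : ∀ i, YY K d (b i) = ((d : K) - 2 * (i : ℕ)) • b i)
    (hC : IrrTri (LinearMap.toMatrix b b C)) :
    ∀ i j : Fin (d + 1), (((i : ℕ) + 1 < (j : ℕ) ∨ (j : ℕ) + 1 < (i : ℕ)) → C (ev K d j) i = 0) ∧
    (((i : ℕ) + 1 = (j : ℕ) ∨ (j : ℕ) + 1 = (i : ℕ)) → C (ev K d j) i ≠ 0) := by
  have h1 : ∀ k : Fin (d + 1), ∃ c : K, c ≠ 0 ∧ b k = c • ev K d k := by
    intro k
    have h2 := eig_mult (Pi.basisFun K (Fin (d + 1))) (YY K d)
      (fun i => by rw [basisFun_eq]; exact Y_ev i) k (b k) (hb k)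
    rw [basisFun_eq] at h2
    refine ⟨_, ?_, h2⟩
    intro h3
    rw [h3, zero_smul] at h2
    exact b.ne_zero k h2
  choose c hc hbc using h1
  have key : ∀ i j : Fin (d + 1), c j * C (ev K d j) i = LinearMap.toMatrix b b C i j * c i := by
    intro i j
    rw [LinearMap.toMatrix_apply]
    have h2 : C (b j) i = c j * C (ev K d j) i := by
      rw [hbc j, map_smul]; rfl
    rw [← h2]
    conv_lhs => rw [← b.sum_repr (C (b j))]
    rw [Finset.sum_apply, Finset.sum_eq_single i]
    · rw [Pi.smul_apply, hbc i, Pi.smul_apply, ev_apply, if_pos rfl]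
      simp
    · intro l _ hl
      rw [Pi.smul_apply, hbc l, Pi.smul_apply, ev_apply,
        if_neg (fun h => hl (Fin.ext h.symm))]
      simp
    · intro h'
      exact absurd (Finset.mem_univ _) h'
  intro i j
  refine ⟨fun h => ?_, fun h h0 => ?_⟩
  · have := key i j
    rw [(hC i j).1 h, zero_mul] at this
    exact (mul_eq_zero.1 this).resolve_left (hc j)
  · have := key i j
    rw [h0, mul_zero] at this
    rcases mul_eq_zero.1 this.symm with h1 | h1
    · exact (hC i j).2 h h1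
    · exact hc i h1

theorem size_eq {n : ℕ} (b : Basis (Fin n) K (Fin (d + 1) → K)) : n = d + 1 := by
  have h := Module.finrank_eq_card_basis b
  rw [finrank_eq, Fintype.card_fin] at h
  exact h.symm

/-- for `d ≥ 3` there is no quadratic term -/
theorem t_zero (hd : 3 ≤ d) (C : Module.End K (Fin (d + 1) → K)) (x y z s t : K)
    (hC : C = x • 1 + y • XX K d + z • YY K d + s • ZZ K d +
        t • (XX K d * YY K d + YY K d * XX K d))
    (c : Basis (Fin (d + 1)) K (Fin (d + 1) → K)) (hcC : (LinearMap.toMatrix c c C).IsDiag)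
    (hX : IrrTri (LinearMap.toMatrix c c (XX K d)))
    (hY : IrrTri (LinearMap.toMatrix c c (YY K d))) : t = 0 := by
  set P := LinearMap.toMatrix c c (XX K d) with hP
  set Q := LinearMap.toMatrix c c (YY K d) with hQ
  have bP := band_of_irr hX
  have bQ := band_of_irr hY
  have e0 : (0 : ℕ) < d + 1 := by omega
  have e1 : 1 < d + 1 := by omega
  have e2 : 2 < d + 1 := by omega
  have e3 : 3 < d + 1 := by omega
  have hCm : LinearMap.toMatrix c c C = x • 1 + y • P + z • Q + s • ((2 : K)⁻¹ • (Q * P - P * Q)) +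
      t • (P * Q + Q * P) := by
    rw [hC, ZZ]
    simp only [map_add, map_sub, map_smul, LinearMap.toMatrix_mul, LinearMap.toMatrix_one, ← hP,
      ← hQ]
  have hrel : Q * (Q * P) - (2 : K) • (Q * (P * Q)) + P * (Q * Q) = (4 : K) • P := by
    have h := congrArg (LinearMap.toMatrix c c) (rel1 (K := K) (d := d))
    simpa only [map_add, map_sub, map_smul, LinearMap.toMatrix_mul, ← hP, ← hQ] using h
  -- entries
  have hdiag : ∀ i j : Fin (d + 1), (i : ℕ) ≠ j → LinearMap.toMatrix c c C i j = 0 :=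
    fun i j hij => hcC fun h => hij (by rw [h])
  have hent : ∀ i k j : Fin (d + 1), (k : ℕ) = i + 1 → (j : ℕ) = k + 1 →
      (t - s / 2) * (P i k * Q k j) + (t + s / 2) * (Q i k * P k j) = 0 := by
    intro i k j hk hj
    have h1 := hdiag i j (by omega)
    rw [hCm] at h1
    have h2 : (1 : Matrix (Fin (d + 1)) (Fin (d + 1)) K) i j = 0 :=
      Matrix.one_apply_ne fun h => by rw [h] at hk; omega
    simp only [Matrix.add_apply, Matrix.sub_apply, Matrix.smul_apply, smul_eq_mul, h2,
      bP i j (by omega), bQ i j (by omega), Band.mul_apply bP bQ i k j hk hj,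
      Band.mul_apply bQ bP i k j hk hj] at h1
    linear_combination h1
  have h02 := hent ⟨0, e0⟩ ⟨1, e1⟩ ⟨2, e2⟩ rfl rfl
  have h13 := hent ⟨1, e1⟩ ⟨2, e2⟩ ⟨3, e3⟩ rfl rfl
  have h03 := congrFun (congrFun hrel ⟨0, e0⟩) ⟨3, e3⟩
  simp only [Matrix.add_apply, Matrix.sub_apply, Matrix.smul_apply, smul_eq_mul] at h03
  rw [Band.mul_apply bQ (bQ.mul bP) ⟨0, e0⟩ ⟨1, e1⟩ ⟨3, e3⟩ rfl rfl,
    Band.mul_apply bQ (bP.mul bQ) ⟨0, e0⟩ ⟨1, e1⟩ ⟨3, e3⟩ rfl rfl,
    Band.mul_apply bP (bQ.mul bQ) ⟨0, e0⟩ ⟨1, e1⟩ ⟨3, e3⟩ rfl rfl,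
    Band.mul_apply bQ bP ⟨1, e1⟩ ⟨2, e2⟩ ⟨3, e3⟩ rfl rfl,
    Band.mul_apply bP bQ ⟨1, e1⟩ ⟨2, e2⟩ ⟨3, e3⟩ rfl rfl,
    Band.mul_apply bQ bQ ⟨1, e1⟩ ⟨2, e2⟩ ⟨3, e3⟩ rfl rfl,
    bP ⟨0, e0⟩ ⟨3, e3⟩ (by simp)] at h03
  have n1 := (hY ⟨0, e0⟩ ⟨1, e1⟩).2 (Or.inl rfl)
  have n2 := (hY ⟨1, e1⟩ ⟨2, e2⟩).2 (Or.inl rfl)
  have n3 := (hX ⟨2, e2⟩ ⟨3, e3⟩).2 (Or.inl rfl)
  set p1 := P ⟨0, e0⟩ ⟨1, e1⟩
  set p2 := P ⟨1, e1⟩ ⟨2, e2⟩
  set p3 := P ⟨2, e2⟩ ⟨3, e3⟩
  set q1 := Q ⟨0, e0⟩ ⟨1, e1⟩
  set q2 := Q ⟨1, e1⟩ ⟨2, e2⟩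
  set q3 := Q ⟨2, e2⟩ ⟨3, e3⟩
  have hfin : (2 * t) ^ 2 * (q1 * q2 * p3) = 0 := by
    linear_combination (t - s / 2) ^ 2 * h03 - (t - s / 2) * q3 * h02 +
      (2 * (t - s / 2) * q1 + (t + s / 2) * q1) * h13
  have h4 := (mul_eq_zero.1 hfin).resolve_right (mul_ne_zero (mul_ne_zero n1 n2) n3)
  have h5 := pow_eq_zero_iff (two_ne_zero) |>.1 h4
  exact (mul_eq_zero.1 h5).resolve_left two_ne_zero

/-- the discriminant is nonzero -/
theorem delta_ne (hd : 1 ≤ d) (C : Module.End K (Fin (d + 1) → K)) (x y z s : K)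
    (hC : C = x • 1 + y • XX K d + z • YY K d + s • ZZ K d)
    (c : Basis (Fin (d + 1)) K (Fin (d + 1) → K)) (hcC : (LinearMap.toMatrix c c C).IsDiag)
    (hX : IrrTri (LinearMap.toMatrix c c (XX K d)))
    (b : Basis (Fin (d + 1)) K (Fin (d + 1) → K)) (hbC : IrrTri (LinearMap.toMatrix b b C)) :
    y ^ 2 + z ^ 2 ≠ s ^ 2 := by
  have C1 := c1 (K := K) (d := d)
  have C2 := c2 (K := K) (d := d)
  have C3 := c3 (K := K) (d := d)
  have hinj := diag_injective c b C hcC hbC
  have hE : C * XX K d - XX K d * C = (2 * s) • YY K d + (2 * z) • ZZ K d := by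
    rw [hC]
    simp only [add_mul, mul_add, smul_mul_assoc, mul_smul_comm, one_mul, mul_one]
    linear_combination (norm := module) (-z) • C1 + s • C3
  have hF : C * (C * XX K d - XX K d * C) - (C * XX K d - XX K d * C) * C =
      (4 * (y ^ 2 + z ^ 2 - s ^ 2)) • XX K d - (4 * y) • (C - x • 1) := by
    rw [hE, hC]
    simp only [add_mul, mul_add, smul_mul_assoc, mul_smul_comm, one_mul, mul_one]
    linear_combination (norm := module) (2 * y * s) • C1 + (2 * z * z - 2 * s * s) • C2 -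
      (2 * y * z) • C3
  intro h0
  rw [h0, sub_self, mul_zero, zero_smul, zero_sub] at hF
  set i0 : Fin (d + 1) := ⟨0, by omega⟩ with hi0
  set i1 : Fin (d + 1) := ⟨1, by omega⟩ with hi1
  have hne : i0 ≠ i1 := fun h => by have := congrArg Fin.val h; simp [hi0, hi1] at this
  have hC1 := diag_apply c C hcC i1
  have h1 := LinearMap.congr_fun hF (c i1)
  have h2 := congrArg (fun v => c.repr v i0) h1
  simp only [LinearMap.sub_apply, LinearMap.neg_apply, LinearMap.smul_apply, Module.End.mul_apply,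
    Module.End.one_apply, map_sub, map_neg, map_smul, Finsupp.sub_apply, Finsupp.neg_apply,
    Finsupp.smul_apply, smul_eq_mul, repr_diag c C hcC, hC1] at h2
  rw [c.repr_self, Finsupp.single_eq_of_ne hne] at h2
  have h3 := (hX i0 i1).2 (Or.inl rfl)
  rw [LinearMap.toMatrix_apply] at h3
  have h4 : (LinearMap.toMatrix c c C i0 i0 - LinearMap.toMatrix c c C i1 i1) ^ 2 *
      c.repr (XX K d (c i1)) i0 = 0 := by linear_combination h2
  have h5 := (mul_eq_zero.1 h4).resolve_right h3
  have h6 := pow_eq_zero_iff (two_ne_zero) |>.1 h5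
  exact hne (hinj (sub_eq_zero.1 h6))

end Nec

section Two

variable {K : Type*} [Field K] [CharZero K]

theorem ev_sum3 (w : Fin (2 + 1) → K) : w = w 0 • ev K 2 0 + w 1 • ev K 2 1 + w 2 • ev K 2 2 := by
  ext i
  fin_cases i <;> simp [ev]

theorem X20 : XX K 2 (ev K 2 0) = ev K 2 1 := X_ev_zero

theorem X21 : XX K 2 (ev K 2 1) = (2 : K) • ev K 2 2 + (2 : K) • ev K 2 0 := by
  have := X_ev (K := K) (d := 2) 0
  simpa using this

theorem X22 : XX K 2 (ev K 2 2) = ev K 2 1 := by
  have := X_ev (K := K) (d := 2) 1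
  rw [ev_big (j := 1 + 2) (by norm_num)] at this
  rw [this]
  norm_num

theorem Y20 : YY K 2 (ev K 2 0) = (2 : K) • ev K 2 0 := by
  have := Y_ev (K := K) (d := 2) 0
  simpa using this

theorem Y21 : YY K 2 (ev K 2 1) = 0 := by
  have := Y_ev (K := K) (d := 2) 1
  simpa using this

theorem Y22 : YY K 2 (ev K 2 2) = (-2 : K) • ev K 2 2 := by
  have := Y_ev (K := K) (d := 2) 2
  rw [this]
  norm_num

theorem C2_ev (x y z s t : K) (C : Module.End K (Fin (2 + 1) → K))
    (hC : C = x • 1 + y • XX K 2 + z • YY K 2 + s • ZZ K 2 +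
        t • (XX K 2 * YY K 2 + YY K 2 * XX K 2)) :
    C (ev K 2 0) = (x + 2 * z) • ev K 2 0 + (y - s + 2 * t) • ev K 2 1 ∧
    C (ev K 2 1) = (2 * (y + s + 2 * t)) • ev K 2 0 + x • ev K 2 1 +
      (2 * (y - s - 2 * t)) • ev K 2 2 ∧
    C (ev K 2 2) = (y + s - 2 * t) • ev K 2 1 + (x - 2 * z) • ev K 2 2 := by
  rw [hC]
  refine ⟨?_, ?_, ?_⟩ <;>
  · simp only [LinearMap.add_apply, LinearMap.smul_apply, Module.End.one_apply,
      Module.End.mul_apply, ZZ, LinearMap.sub_apply, map_add, map_smul, map_zero, X20, X21, X22, Y20,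
      Y21, Y22]
    match_scalars <;> first
      | ring1
      | (field_simp; done)
      | (field_simp; ring1)

theorem two_aux (x y z s t : K) (C : Module.End K (Fin (2 + 1) → K))
    (hC : C = x • 1 + y • XX K 2 + z • YY K 2 + s • ZZ K 2 +
        t • (XX K 2 * YY K 2 + YY K 2 * XX K 2)) (ht : t ≠ 0) (lam lam' : K)
    (w : Fin (2 + 1) → K) (r : (Fin (2 + 1) → K) →ₗ[K] K) (hr : r ≠ 0)
    (h1 : r w = 0) (h2 : r (XX K 2 w) = 0) (h3 : r (YY K 2 w) = 0) (h4 : C w = lam • w)
    (h5 : ∀ v, r (C v) = lam' * r v) : w 0 + w 2 = 0 ∧ y * w 1 + z * w 0 = 0 := by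
  obtain ⟨C0, C1, C2⟩ := C2_ev x y z s t C hC
  set a := r (ev K 2 0) + r (ev K 2 2) with ha
  set b := r (ev K 2 1) with hb
  set e := r (ev K 2 0) - r (ev K 2 2) with he
  set p := (w 0 + w 2) / 2 with hp
  set q := w 1 with hq
  set m := (w 0 - w 2) / 2 with hm
  have w0 : w 0 = p + m := by rw [hp, hm]; ring
  have w2 : w 2 = p - m := by rw [hp, hm]; ring
  have r0 : r (ev K 2 0) = (a + e) / 2 := by rw [ha, he]; ring
  have r2 : r (ev K 2 2) = (a - e) / 2 := by rw [ha, he]; ring
  have hw' : w = (p + m) • ev K 2 0 + q • ev K 2 1 + (p - m) • ev K 2 2 := by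
    rw [← w0, ← w2, hq]; exact ev_sum3 w
  have g1 : a * p + b * q + e * m = 0 := by
    rw [hw'] at h1
    simp only [map_add, map_smul, smul_eq_mul, r0, r2, ← hb] at h1
    linear_combination h1
  have g2 : p * b + q * a = 0 := by
    rw [hw'] at h2
    simp only [map_add, map_smul, smul_eq_mul, X20, X21, X22, r0, r2, ← hb] at h2
    linear_combination (1 / 2 : K) * h2
  have g3 : a * m + e * p = 0 := by
    rw [hw'] at h3
    simp only [map_add, map_smul, smul_eq_mul, Y20, Y21, Y22, map_zero, r0, r2, ← hb] at h3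
    linear_combination (1 / 2 : K) * h3
  have hCw : C w = ((x + 2 * z) * (p + m) + 2 * (y + s + 2 * t) * q) • ev K 2 0 +
      ((y - s + 2 * t) * (p + m) + x * q + (y + s - 2 * t) * (p - m)) • ev K 2 1 +
      (2 * (y - s - 2 * t) * q + (x - 2 * z) * (p - m)) • ev K 2 2 := by
    rw [hw']
    simp only [map_add, map_smul, C0, C1, C2]
    module
  have k0 := congrFun h4 0
  have k1 := congrFun h4 1
  have k2 := congrFun h4 2
  rw [hCw] at k0 k1 k2
  simp [ev, w0] at k0
  simp [ev, ← hq] at k1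
  simp [ev, w2] at k2
  have l0 := h5 (ev K 2 0)
  have l1 := h5 (ev K 2 1)
  have l2 := h5 (ev K 2 2)
  rw [C0] at l0
  rw [C1] at l1
  rw [C2] at l2
  simp only [map_add, map_smul, smul_eq_mul, r0, r2, ← hb] at l0 l1 l2
  have K1 : x * p + 2 * y * q + 2 * z * m = lam * p := by
    linear_combination (1 / 2 : K) * k0 + (1 / 2 : K) * k2
  have K2 : x * q + 2 * y * p + (4 * t - 2 * s) * m = lam * q := by
    linear_combination k1
  have K3 : x * m + 2 * z * p + (2 * s + 4 * t) * q = lam * m := by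
    linear_combination (1 / 2 : K) * k0 - (1 / 2 : K) * k2
  have L1 : x * a + 2 * z * e + 2 * y * b = lam' * a := by
    linear_combination l0 + l2
  have L2 : 2 * y * a + (2 * s + 4 * t) * e + x * b = lam' * b := by
    linear_combination l1
  have L3 : x * e + 2 * z * a + (4 * t - 2 * s) * b = lam' * e := by
    linear_combination l0 - l2
  have hp0 : p = 0 := by
    by_contra hp0
    have ha0 : a ≠ 0 := by
      intro ha0
      have hb0 : b = 0 := by
        have : p * b = 0 := by linear_combination g2 - q * ha0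
        exact (mul_eq_zero.1 this).resolve_left hp0
      have he0 : e = 0 := by
        have : p * e = 0 := by linear_combination g3 - m * ha0
        exact (mul_eq_zero.1 this).resolve_left hp0
      apply hr
      rw [ha0, he0] at r0 r2
      refine (Pi.basisFun K (Fin (2 + 1))).ext fun i => ?_
      rw [basisFun_eq]
      fin_cases i
      · simpa using r0
      · simpa [hb0] using hb.symm
      · simpa using r2
    have c1 : p ^ 2 - q ^ 2 - m ^ 2 = 0 := by
      have : a * (p ^ 2 - q ^ 2 - m ^ 2) = 0 := by linear_combination p * g1 - q * g2 - m * g3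
      exact (mul_eq_zero.1 this).resolve_left ha0
    have c2 : lam' = 2 * x - lam := by
      have : (a * p) * (lam' - 2 * x + lam) = 0 := by
        linear_combination (-p) * L1 - a * K1 + 2 * y * g2 + 2 * z * g3
      linear_combination (mul_eq_zero.1 this).resolve_left (mul_ne_zero ha0 hp0)
    have c3 : m = 0 := by
      have : (8 * t * a) * m = 0 := by
        linear_combination a * K2 - p * L2 + (2 * s + 4 * t) * g3 + (x - lam') * g2 + q * a * c2
      exact (mul_eq_zero.1 this).resolve_left (mul_ne_zero (mul_ne_zero (by norm_num) ht) ha0)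
    have c4 : q = 0 := by
      have : (8 * t * a) * q = 0 := by
        linear_combination a * K3 - p * L3 + (4 * t - 2 * s) * g2 + (x - lam') * g3 + m * a * c2
      exact (mul_eq_zero.1 this).resolve_left (mul_ne_zero (mul_ne_zero (by norm_num) ht) ha0)
    rw [c3, c4] at c1
    apply hp0
    have : p ^ 2 = 0 := by linear_combination c1
    exact pow_eq_zero_iff (two_ne_zero) |>.1 this
  refine ⟨?_, ?_⟩
  · rw [w0, w2, hp0]; ring
  · rw [w0]
    rw [hp0] at K1 ⊢
    linear_combination (1 / 2 : K) * K1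

/-- for `d = 2`, a nonzero quadratic term forces the linear terms to vanish -/
theorem nec2 (x y z s t : K) (C : Module.End K (Fin (2 + 1) → K))
    (hC : C = x • 1 + y • XX K 2 + z • YY K 2 + s • ZZ K 2 +
        t • (XX K 2 * YY K 2 + YY K 2 * XX K 2)) (ht : t ≠ 0)
    (c : Basis (Fin (2 + 1)) K (Fin (2 + 1) → K)) (hcC : (LinearMap.toMatrix c c C).IsDiag)
    (hX : IrrTri (LinearMap.toMatrix c c (XX K 2)))
    (hY : IrrTri (LinearMap.toMatrix c c (YY K 2))) : y = 0 ∧ z = 0 := by
  have hcoord : ∀ i, c.coord i ≠ 0 := fun i h => by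
    have := LinearMap.congr_fun h (c i)
    rw [Basis.coord_apply, c.repr_self, Finsupp.single_eq_same, LinearMap.zero_apply] at this
    exact one_ne_zero this
  have h0 := two_aux x y z s t C hC ht (LinearMap.toMatrix c c C 0 0)
    (LinearMap.toMatrix c c C 2 2) (c 0) (c.coord 2) (hcoord 2)
    (by rw [Basis.coord_apply, c.repr_self, Finsupp.single_eq_of_ne (by decide)])
    (by
      have := (hX 2 0).1 (Or.inr (by decide))
      rwa [LinearMap.toMatrix_apply] at this)
    (by
      have := (hY 2 0).1 (Or.inr (by decide))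
      rwa [LinearMap.toMatrix_apply] at this)
    (diag_apply c C hcC 0) (fun v => repr_diag c C hcC v 2)
  have h2 := two_aux x y z s t C hC ht (LinearMap.toMatrix c c C 2 2)
    (LinearMap.toMatrix c c C 0 0) (c 2) (c.coord 0) (hcoord 0)
    (by rw [Basis.coord_apply, c.repr_self, Finsupp.single_eq_of_ne (by decide)])
    (by
      have := (hX 0 2).1 (Or.inl (by decide))
      rwa [LinearMap.toMatrix_apply] at this)
    (by
      have := (hY 0 2).1 (Or.inl (by decide))
      rwa [LinearMap.toMatrix_apply] at this)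
    (diag_apply c C hcC 2) (fun v => repr_diag c C hcC v 0)
  obtain ⟨a1, a2⟩ := h0
  obtain ⟨b1, b2⟩ := h2
  have hind : ∀ α β : K, α • c 0 - β • c 2 = 0 → α = 0 ∧ β = 0 := by
    intro α β h
    constructor
    · have := congrArg (fun v => c.repr v 0) h
      simpa [Finsupp.single_apply] using this
    · have := congrArg (fun v => c.repr v 2) h
      simpa [Finsupp.single_apply] using this
  have hΔ : c 0 0 * c 2 1 - c 2 0 * c 0 1 ≠ 0 := by
    intro h
    have e1 : c 2 1 • c 0 - c 0 1 • c 2 = 0 := by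
      ext i
      fin_cases i
      · simp; linear_combination h
      · simp; ring
      · simp; linear_combination (-1 : K) * h + c 2 1 * a1 - c 0 1 * b1
    have e2 : c 2 0 • c 0 - c 0 0 • c 2 = 0 := by
      ext i
      fin_cases i
      · simp; ring
      · simp; linear_combination (-1 : K) * h
      · simp; linear_combination c 2 0 * a1 - c 0 0 * b1
    have f1 := (hind _ _ e1).2
    have f2 := (hind _ _ e2).2
    apply c.ne_zero 0
    ext i
    fin_cases i
    · simpa using f2
    · simpa using f1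
    · simp; linear_combination a1 - f2
  constructor
  · have : (c 0 0 * c 2 1 - c 2 0 * c 0 1) * y = 0 := by
      linear_combination c 0 0 * b2 - c 2 0 * a2
    exact (mul_eq_zero.1 this).resolve_left hΔ
  · have : (c 0 0 * c 2 1 - c 2 0 * c 0 1) * z = 0 := by
      linear_combination c 2 1 * a2 - c 0 1 * b2
    exact (mul_eq_zero.1 this).resolve_left hΔ

end Two

section OnlyIf

variable {K : Type*} [Field K] [CharZero K] {d : ℕ}

/-- necessary conditions -/
theorem only_if (hd : 1 ≤ d) (C : Module.End K (Fin (d + 1) → K))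
    (h : LeonardTriple (XX K d) (YY K d) C) :
    (∃ x y z s : K, C = x • 1 + y • XX K d + z • YY K d + s • ZZ K d ∧ y ^ 2 ≠ s ^ 2 ∧
      z ^ 2 ≠ s ^ 2 ∧ y ^ 2 + z ^ 2 ≠ s ^ 2) ∨
    (d = 2 ∧ ∃ x u v : K, u ≠ 0 ∧ v ≠ 0 ∧
      C = x • 1 + u • (XX K d * YY K d) + v • (YY K d * XX K d)) := by
  obtain ⟨⟨n1, b1, hb1, hb1', hb1''⟩, ⟨n2, b2, hb2, hb2', hb2''⟩, ⟨n3, c, hc, hc', hc''⟩⟩ := h
  have e1 := size_eq b1
  subst e1
  have e2 := size_eq b2
  subst e2
  have e3 := size_eq c
  subst e3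
  -- eigenvalues
  have hXb := diag_injective b1 b2 (XX K d) hb1 hb2'
  have hYb := diag_injective b2 b1 (YY K d) hb2 hb1'
  obtain ⟨b, hb, hb0, hbY, hbC⟩ := normal_form (XX K d) (YY K d) C rel2 trace_X b1 hb1 hb1' hb1'' hXb
  obtain ⟨b', hb', hb0', hbX', hbC'⟩ := normal_form (YY K d) (XX K d) C rel1 trace_Y b2 hb2 hb2'
    hb2'' hYb
  have hstd := irr_std C b' hb' hbC'
  obtain ⟨x, y, z, s, t, hform, hβ, hβ'⟩ := form hd C (LinearMap.toMatrix' C)
    (by rw [Matrix.toLin'_toMatrix']) (fun i j hij => by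
      have := (hstd i j).1 hij
      rw [LinearMap.toMatrix'_apply]
      rw [← basisFun_eq, Pi.basisFun_apply] at this
      convert this using 2) b hb hb0 hbY hbC
  have hn01 : y + s + 2 * (d - 1) * t ≠ 0 := by
    have h01 := (hstd ⟨0, by omega⟩ ⟨1, by omega⟩).2 (Or.inl rfl)
    intro h0
    apply h01
    rw [hform, entries, if_neg (by simp)]
    push_cast
    linear_combination (matA K d ⟨0, by omega⟩ ⟨1, by omega⟩) * h0
  have hn10 : y - s + 2 * (d - 1) * t ≠ 0 := by
    have h01 := (hstd ⟨1, by omega⟩ ⟨0, by omega⟩).2 (Or.inr rfl)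
    intro h0
    apply h01
    rw [hform, entries, if_neg (by simp)]
    push_cast
    linear_combination (matA K d ⟨1, by omega⟩ ⟨0, by omega⟩) * h0
  have key : C = x • 1 + y • XX K d + z • YY K d + s • ZZ K d → 2 * ((d : K) - 1) * t = 0 →
      (∃ x y z s : K, C = x • 1 + y • XX K d + z • YY K d + s • ZZ K d ∧ y ^ 2 ≠ s ^ 2 ∧
      z ^ 2 ≠ s ^ 2 ∧ y ^ 2 + z ^ 2 ≠ s ^ 2) := by
    intro h1 h2
    rw [h2, add_zero] at hn01 hn10 hβ
    rw [h2, sub_zero] at hβ'
    refine ⟨x, y, z, s, h1, fun h3 => ?_, fun h3 => ?_, delta_ne hd C x y z s h1 c hc hc' b hbC⟩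
    · exact mul_ne_zero hn01 hn10 (by linear_combination h3)
    · exact mul_ne_zero hβ hβ' (by linear_combination h3)
  rcases Nat.lt_or_ge d 3 with hd3 | hd3
  · obtain rfl | rfl : d = 1 ∨ d = 2 := by omega
    · left
      refine key ?_ (by simp)
      rw [hform]
      refine end_ext' fun j i => ?_
      have h1 := entries (d := 1) x y z s t i j
      have h2 := entries (d := 1) x y z s 0 i j
      rw [zero_smul, add_zero] at h2
      rw [h1, h2]
      have h3 : (((1 : ℕ) : K) - (i : ℕ) - (j : ℕ)) * matA K 1 i j = 0 := by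
        fin_cases i <;> fin_cases j <;> simp [matA]
      linear_combination (2 * t) * h3
    · by_cases ht : t = 0
      · left
        refine key ?_ (by rw [ht, mul_zero])
        rw [hform, ht, zero_smul, add_zero]
      · right
        obtain ⟨hy, hz⟩ := nec2 x y z s t C hform ht c hc hc' hc''
        refine ⟨rfl, x, t - s / 2, t + s / 2, ?_, ?_, ?_⟩
        · intro h0
          apply hn10
          rw [hy]
          push_cast
          linear_combination (2 : K) * h0
        · intro h0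
          apply hn01
          rw [hy]
          push_cast
          linear_combination (2 : K) * h0
        · rw [hform, hy, hz, ZZ]
          match_scalars <;> first
            | ring1
            | (field_simp; done)
            | (field_simp; ring1)
  · left
    have ht := t_zero hd3 C x y z s t hform c hc hc' hc''
    refine key ?_ (by rw [ht, mul_zero])
    rw [hform, ht, zero_smul, add_zero]

end OnlyIf

end Pool.Agent.D0H77
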