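import Pool.Agent.D0H77.Kraw4

/-!
# The Krawtchouk Leonard pair: the exceptional triples for `d = 2`, and the final statements
-/

set_option autoImplicit false

namespace Pool.Agent.D0H77

open Module Matrix

section Two

variable {K : Type*} [Field K]

theorem irrTri3 (a b c e f g h : K) (hb : b ≠ 0) (hc : c ≠ 0) (hf : f ≠ 0) (hg : g ≠ 0) :
    IrrTri !![a, b, 0; c, e, f; 0, g, h] := by
  intro i j
  fin_cases i <;> fin_cases j <;> simp [hb, hc, hf, hg]

theorem diagTri_of (T S R : Module.End K (Fin (2 + 1) → K)) (v : Fin 3 → (Fin (2 + 1) → K))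
    (μ : Fin 3 → K) (hμ : Function.Injective μ) (hv : ∀ i, T (v i) = μ i • v i)
    (hv0 : ∀ i, v i ≠ 0) (N N' : Matrix (Fin 3) (Fin 3) K)
    (hN : ∀ j, S (v j) = ∑ i, N i j • v i) (hN' : ∀ j, R (v j) = ∑ i, N' i j • v i)
    (h1 : IrrTri N) (h2 : IrrTri N') : DiagTri T S R := by
  have hli : LinearIndependent K v := Module.End.eigenvectors_linearIndependent' T μ hμ v
    fun j => ⟨Module.End.mem_eigenspace_iff.2 (hv j), hv0 j⟩
  have hcard : Fintype.card (Fin 3) = Module.finrank K (Fin (2 + 1) → K) := by simp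
  let b := basisOfLinearIndependentOfCardEqFinrank hli hcard
  have hb : ∀ i, b i = v i := fun i => by
    show basisOfLinearIndependentOfCardEqFinrank hli hcard i = v i
    rw [coe_basisOfLinearIndependentOfCardEqFinrank]
  have hmat : ∀ (Q : Module.End K (Fin (2 + 1) → K)) (N : Matrix (Fin 3) (Fin 3) K),
      (∀ j, Q (v j) = ∑ i, N i j • v i) → LinearMap.toMatrix b b Q = N := by
    intro Q N hQ
    ext i j
    rw [LinearMap.toMatrix_apply, hb, hQ]
    have : ∑ i, N i j • v i = ∑ i, N i j • b i := by simp [hb]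
    rw [this, map_sum, Finsupp.finset_sum_apply, Finset.sum_eq_single i]
    · simp
    · intro k _ hk
      simp [Finsupp.single_apply, hk]
    · intro h'
      exact absurd (Finset.mem_univ _) h'
  refine ⟨3, b, ?_, ?_, ?_⟩
  · have : LinearMap.toMatrix b b T = Matrix.diagonal μ := by
      apply hmat
      intro j
      rw [hv, Finset.sum_eq_single j]
      · simp
      · intro k _ hk
        simp [Matrix.diagonal_apply_ne _ hk]
      · intro h'
        exact absurd (Finset.mem_univ _) h'
    rw [this]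
    exact Matrix.isDiag_diagonal μ
  · rw [hmat S N hN]; exact h1
  · rw [hmat R N' hN']; exact h2

variable [CharZero K]

theorem exc_aux [IsAlgClosed K] (x u v : K) (hu : u ≠ 0) (hv : v ≠ 0)
    (X Y C : Module.End K (Fin (2 + 1) → K))
    (X0 : X (ev K 2 0) = ev K 2 1) (X1 : X (ev K 2 1) = (2 : K) • ev K 2 2 + (2 : K) • ev K 2 0)
    (X2 : X (ev K 2 2) = ev K 2 1) (Y0 : Y (ev K 2 0) = (2 : K) • ev K 2 0)
    (Y1 : Y (ev K 2 1) = 0) (Y2 : Y (ev K 2 2) = (-2 : K) • ev K 2 2)
    (C0 : C (ev K 2 0) = x • ev K 2 0 + (2 * u) • ev K 2 1)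
    (C1 : C (ev K 2 1) = (4 * v) • ev K 2 0 + x • ev K 2 1 + (-4 * v) • ev K 2 2)
    (C2 : C (ev K 2 2) = (-2 * u) • ev K 2 1 + x • ev K 2 2) :
    LeonardTriple X Y C := by
  obtain ⟨lam, hlam⟩ := IsAlgClosed.exists_pow_nat_eq (16 * u * v) (n := 2) two_pos
  have hlam0 : lam ≠ 0 := by
    rintro rfl
    have : 16 * u * v = 0 := by rw [← hlam]; ring
    exact mul_ne_zero (mul_ne_zero (by norm_num) hu) hv this
  have hinj : ∀ (a c : K), c ≠ 0 → Function.Injective ![a + c, a, a - c] := by
    intro a c hc i j hij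
    fin_cases i <;> fin_cases j <;> simp at hij ⊢ <;> first
      | exact hc (by linear_combination hij)
      | exact hc (by linear_combination (-1 : K) * hij)
      | exact hc (by linear_combination (1 / 2 : K) * hij)
      | exact hc (by linear_combination (-1 / 2 : K) * hij)
  have h2 : (2 : K) ≠ 0 := two_ne_zero
  refine ⟨?_, ?_, ?_⟩
  · refine diagTri_of _ _ _ ![ev K 2 0 + ev K 2 1 + ev K 2 2, ev K 2 0 - ev K 2 2,
      ev K 2 0 - ev K 2 1 + ev K 2 2] ![0 + 2, 0, 0 - 2] (hinj 0 2 h2) ?_ ?_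
      !![0, 1, 0; 2, 0, 2; 0, 1, 0] !![x, 2 * u, 0; 4 * v, x, -4 * v; 0, -2 * u, x] ?_ ?_
      (irrTri3 _ _ _ _ _ _ _ one_ne_zero h2 h2 one_ne_zero)
      (irrTri3 _ _ _ _ _ _ _ (mul_ne_zero h2 hu) (mul_ne_zero (by norm_num) hv)
        (mul_ne_zero (by norm_num) hv) (mul_ne_zero (by norm_num) hu))
    · intro i
      fin_cases i
      · simp only [Fin.zero_eta, Matrix.cons_val_zero, map_add, map_sub, X0, X1, X2]
        module
      · simp [X0, X2]
      · simp [X0, X1, X2]
        module
    · intro i h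
      have h' := congrFun h 0
      fin_cases i <;> simp [ev] at h'
    · intro j
      rw [Fin.sum_univ_three]
      fin_cases j <;> simp [Y0, Y1, Y2] <;> module
    · intro j
      rw [Fin.sum_univ_three]
      fin_cases j <;> simp [C0, C1, C2] <;> module
  · refine diagTri_of _ _ _ ![ev K 2 0, ev K 2 1, ev K 2 2] ![0 + 2, 0, 0 - 2] (hinj 0 2 h2) ?_ ?_
      !![0, 2, 0; 1, 0, 1; 0, 2, 0] !![x, 4 * v, 0; 2 * u, x, -2 * u; 0, -4 * v, x] ?_ ?_
      (irrTri3 _ _ _ _ _ _ _ h2 one_ne_zero one_ne_zero h2)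
      (irrTri3 _ _ _ _ _ _ _ (mul_ne_zero (by norm_num) hv) (mul_ne_zero h2 hu)
        (mul_ne_zero (by norm_num) hu) (mul_ne_zero (by norm_num) hv))
    · intro i
      fin_cases i
      · simp [Y0]
      · simp [Y1]
      · simp [Y2]
    · intro i h
      fin_cases i
      · have h' := congrFun h 0
        simp [ev] at h'
      · have h' := congrFun h 1
        simp [ev] at h'
      · have h' := congrFun h 2
        simp [ev] at h'
    · intro j
      rw [Fin.sum_univ_three]
      fin_cases j <;> simp [X0, X1, X2] <;> module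
    · intro j
      rw [Fin.sum_univ_three]
      fin_cases j <;> simp [C0, C1, C2] <;> module
  · refine diagTri_of _ _ _ ![(4 * v) • ev K 2 0 + lam • ev K 2 1 - (4 * v) • ev K 2 2,
      ev K 2 0 + ev K 2 2, (4 * v) • ev K 2 0 - lam • ev K 2 1 - (4 * v) • ev K 2 2]
      ![x + lam, x, x - lam] (hinj x lam hlam0) ?_ ?_
      !![0, 1 / lam, 0; 2 * lam, 0, -2 * lam; 0, -1 / lam, 0]
      !![0, 1 / (4 * v), 0; 8 * v, 0, 8 * v; 0, 1 / (4 * v), 0] ?_ ?_
      (irrTri3 _ _ _ _ _ _ _ (one_div_ne_zero hlam0) (mul_ne_zero h2 hlam0)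
        (mul_ne_zero (by norm_num) hlam0) (div_ne_zero (by norm_num) hlam0))
      (irrTri3 _ _ _ _ _ _ _ (one_div_ne_zero (mul_ne_zero (by norm_num) hv))
        (mul_ne_zero (by norm_num) hv) (mul_ne_zero (by norm_num) hv)
        (one_div_ne_zero (mul_ne_zero (by norm_num) hv)))
    · intro i
      fin_cases i
      · simp [C0, C1, C2]
        match_scalars
        · ring
        · linear_combination (-1 : K) * hlam
        · ring
      · simp [C0, C1, C2]
      · simp [C0, C1, C2]
        match_scalars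
        · ring
        · linear_combination (-1 : K) * hlam
        · ring
    · intro i h
      have h' := congrFun h 0
      fin_cases i <;> simp [ev, hv] at h'
    · intro j
      rw [Fin.sum_univ_three]
      fin_cases j
      · simp [X0, X1, X2]
        module
      · simp [X0, X1, X2]
        match_scalars <;> first | ring1 | (field_simp; done) | (field_simp; ring1)
      · simp [X0, X1, X2]
        module
    · intro j
      rw [Fin.sum_univ_three]
      fin_cases j
      · simp [Y0, Y1, Y2]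
        module
      · simp [Y0, Y1, Y2]
        match_scalars <;> first | ring1 | (field_simp; done) | (field_simp; ring1)
      · simp [Y0, Y1, Y2]
        module


theorem exc_triple [IsAlgClosed K] (x u v : K) (hu : u ≠ 0) (hv : v ≠ 0) :
    LeonardTriple (XX K 2) (YY K 2)
      (x • 1 + u • (XX K 2 * YY K 2) + v • (YY K 2 * XX K 2)) := by
  refine exc_aux x u v hu hv _ _ _ X20 X21 X22 Y20 Y21 Y22 ?_ ?_ ?_
  all_goals
    simp only [LinearMap.add_apply, LinearMap.smul_apply, Module.End.one_apply,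
      Module.End.mul_apply, map_add, map_smul, map_zero, X20, X21, X22, Y20, Y21, Y22]
    module

end Two

section Final

variable {K : Type*} [Field K] [CharZero K] [IsAlgClosed K] {d : ℕ}

/-- in dimension one, everything is a Leonard triple -/
theorem triple_zero (X Y C : Module.End K (Fin (0 + 1) → K)) : LeonardTriple X Y C := by
  have h : ∀ M : Matrix (Fin (0 + 1)) (Fin (0 + 1)) K, M.IsDiag ∧ IrrTri M := by
    intro M
    refine ⟨fun i j hij => absurd (Subsingleton.elim (α := Fin 1) i j) hij, fun i j => ?_⟩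
    have hi : (i : ℕ) = 0 := by have := i.2; omega
    have hj : (j : ℕ) = 0 := by have := j.2; omega
    exact ⟨fun h => absurd h (by omega), fun h => absurd h (by omega)⟩
  have h2 : ∀ X Y C : Module.End K (Fin (0 + 1) → K), DiagTri X Y C := fun X Y C =>
    ⟨0 + 1, Pi.basisFun K _, (h _).1, (h _).2, (h _).2⟩
  exact ⟨h2 _ _ _, h2 _ _ _, h2 _ _ _⟩

theorem toLin_form (x y z s : K) :
    Matrix.toLin' (x • (1 : Matrix (Fin (d + 1)) (Fin (d + 1)) K) + y • matA K d + z • matB K d +
      s • (matB K d * matA K d - matA K d * matB K d)) =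
    x • 1 + y • XX K d + z • YY K d + (2 * s) • ZZ K d := by
  rw [ZZ, smul_smul]
  have : 2 * s * 2⁻¹ = s := by ring
  rw [this]
  simp only [map_add, map_sub, map_smul, Matrix.toLin'_mul, Matrix.toLin'_one]
  rfl

theorem toLin_exc (x u v : K) :
    Matrix.toLin' (x • (1 : Matrix (Fin (d + 1)) (Fin (d + 1)) K) + u • (matA K d * matB K d) +
      v • (matB K d * matA K d)) =
    x • 1 + u • (XX K d * YY K d) + v • (YY K d * XX K d) := by
  simp only [map_add, map_smul, Matrix.toLin'_mul, Matrix.toLin'_one]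
  rfl

theorem classification (d : ℕ) (M : Matrix (Fin (d + 1)) (Fin (d + 1)) K) :
    LeonardTriple (Matrix.toLin' (matA K d)) (Matrix.toLin' (matB K d)) (Matrix.toLin' M) ↔
      d = 0 ∨
      (∃ x y z s : K, y ^ 2 ≠ 4 * s ^ 2 ∧ z ^ 2 ≠ 4 * s ^ 2 ∧ y ^ 2 + z ^ 2 ≠ 4 * s ^ 2 ∧
        M = x • (1 : Matrix (Fin (d + 1)) (Fin (d + 1)) K) + y • matA K d + z • matB K d +
          s • (matB K d * matA K d - matA K d * matB K d)) ∨
      (d = 2 ∧ ∃ x u v : K, u ≠ 0 ∧ v ≠ 0 ∧
        M = x • (1 : Matrix (Fin (d + 1)) (Fin (d + 1)) K) + u • (matA K d * matB K d) +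
          v • (matB K d * matA K d)) := by
  constructor
  · intro h
    rcases Nat.eq_zero_or_pos d with h0 | hd
    · exact Or.inl h0
    · right
      rcases only_if hd _ h with ⟨x, y, z, s, hM, h1, h2, h3⟩ | ⟨rfl, x, u, v, hu, hv, hM⟩
      · left
        refine ⟨x, y, z, s / 2, ?_, ?_, ?_, ?_⟩
        · rw [show 4 * (s / 2) ^ 2 = s ^ 2 by ring]; exact h1
        · rw [show 4 * (s / 2) ^ 2 = s ^ 2 by ring]; exact h2
        · rw [show 4 * (s / 2) ^ 2 = s ^ 2 by ring]; exact h3
        · apply Matrix.toLin'.injective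
          rw [toLin_form, hM, show 2 * (s / 2) = s by ring]
      · right
        refine ⟨rfl, x, u, v, hu, hv, ?_⟩
        apply Matrix.toLin'.injective
        rw [toLin_exc, hM]
  · rintro (rfl | ⟨x, y, z, s, h1, h2, h3, rfl⟩ | ⟨rfl, x, u, v, hu, hv, rfl⟩)
    · exact triple_zero _ _ _
    · rw [toLin_form]
      have h4 : (2 * s) ^ 2 = 4 * s ^ 2 := by ring
      exact triple_of x y z (2 * s) (by rw [h4]; exact h1) (by rw [h4]; exact h2)
        (by rw [h4]; exact h3)
    · rw [toLin_exc]
      exact exc_triple x u v hu hv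

/-- the commutator is not in the span of `1, A, A*` -/
theorem comm_not_span (hd : 1 ≤ d) (a b c : K) :
    matA K d * matB K d - matB K d * matA K d ≠
      a • (1 : Matrix (Fin (d + 1)) (Fin (d + 1)) K) + b • matA K d + c • matB K d := by
  intro h
  have e01 := congrFun (congrFun h ⟨0, by omega⟩) ⟨1, by omega⟩
  have e10 := congrFun (congrFun h ⟨1, by omega⟩) ⟨0, by omega⟩
  have hd0 : (d : K) ≠ 0 := by exact_mod_cast (by omega : d ≠ 0)
  simp [matB, Matrix.mul_diagonal, Matrix.diagonal_mul, matA] at e01 e10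
  have h1 : (d : K) * (b + 2) = 0 := by linear_combination -e01
  have h2 := (mul_eq_zero.1 h1).resolve_left hd0
  have : (4 : K) = 0 := by linear_combination h2 + e10
  norm_num at this

end Final

end Pool.Agent.D0H77
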