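import Mathlib

/-!
# Leonard pairs and triples: basic facts
-/

set_option autoImplicit false

namespace Pool.Agent.D0H77

open Module

section Defs

variable {K : Type*} [Field K] {V : Type*} [AddCommGroup V] [Module K V]

/-- A square matrix is irreducible tridiagonal: the entries `(i, j)` with `|i - j| > 1` are zero and
the entries with `|i - j| = 1` are nonzero. -/
def IrrTri {n : ℕ} (M : Matrix (Fin n) (Fin n) K) : Prop :=
  ∀ i j : Fin n,
    (((i : ℕ) + 1 < (j : ℕ) ∨ (j : ℕ) + 1 < (i : ℕ)) → M i j = 0) ∧
    (((i : ℕ) + 1 = (j : ℕ) ∨ (j : ℕ) + 1 = (i : ℕ)) → M i j ≠ 0)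

/-- In some basis of `V` the map `X` is represented by a diagonal matrix and the maps `Y` and `Z`
are represented by irreducible tridiagonal matrices. -/
def DiagTri (X Y Z : Module.End K V) : Prop :=
  ∃ (n : ℕ) (b : Basis (Fin n) K V), (LinearMap.toMatrix b b X).IsDiag ∧
    IrrTri (LinearMap.toMatrix b b Y) ∧ IrrTri (LinearMap.toMatrix b b Z)

/-- `X, Y, Z` is a Leonard triple on `V`: for each of the three maps there is a basis of `V` in which
this map is represented by a diagonal matrix and the other two by irreducible tridiagonal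
matrices. -/
def LeonardTriple (X Y Z : Module.End K V) : Prop :=
  DiagTri X Y Z ∧ DiagTri Y X Z ∧ DiagTri Z X Y

end Defs

section

variable {K : Type*} [Field K] {V : Type*} [AddCommGroup V] [Module K V] {n : ℕ}

theorem diag_apply (b : Basis (Fin n) K V) (A : Module.End K V)
    (hA : (LinearMap.toMatrix b b A).IsDiag) (i : Fin n) :
    A (b i) = LinearMap.toMatrix b b A i i • b i := by
  conv_lhs => rw [← b.sum_repr (A (b i))]
  rw [Finset.sum_eq_single i]
  · rw [LinearMap.toMatrix_apply]
  · intro j _ hj
    have : LinearMap.toMatrix b b A j i = 0 := hA hj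
    rw [LinearMap.toMatrix_apply] at this
    rw [this, zero_smul]
  · intro h'
    exact absurd (Finset.mem_univ i) h'

/-- an eigenvector of an irreducible tridiagonal matrix with zero first coordinate is zero -/
theorem tridiag_eigen_zero (c : Basis (Fin n) K V) (A : Module.End K V)
    (hA : IrrTri (LinearMap.toMatrix c c A)) (x : V) (t : K) (hx : A x = t • x)
    (h0 : ∀ i : Fin n, (i : ℕ) = 0 → c.repr x i = 0) : x = 0 := by
  have key : ∀ k : ℕ, ∀ i : Fin n, (i : ℕ) ≤ k → c.repr x i = 0 := by
    intro k
    induction k with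
    | zero => exact fun i hi => h0 i (by omega)
    | succ k ih =>
      intro i hi
      rcases Nat.lt_or_ge k i with h1 | h1
      · -- row `k` of `A x = t x`
        have hik : (i : ℕ) = k + 1 := by omega
        have hk : k < n := by have := i.isLt; omega
        have h2 := congrArg (fun y => c.repr y ⟨k, hk⟩) hx
        have h3 : c.repr (A x) ⟨k, hk⟩ =
            ∑ j, LinearMap.toMatrix c c A ⟨k, hk⟩ j * c.repr x j := by
          have := LinearMap.toMatrix_mulVec_repr c c A x
          have h4 := congrFun this ⟨k, hk⟩
          rw [← h4]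
          rfl
        simp only [map_smul, Finsupp.smul_apply, smul_eq_mul] at h2
        rw [h3, ih ⟨k, hk⟩ le_rfl, mul_zero, Finset.sum_eq_single i] at h2
        · exact (mul_eq_zero.1 h2).resolve_left ((hA ⟨k, hk⟩ i).2 (by left; exact hik.symm))
        · intro j _ hj
          rcases Nat.lt_or_ge k j with h5 | h5
          · have h6 : (k : ℕ) + 1 < j := by
              rcases Nat.lt_or_ge (k + 1) j with h7 | h7
              · exact h7
              · exact absurd (Fin.ext (by omega)) hj
            rw [(hA ⟨k, hk⟩ j).1 (by left; exact h6), zero_mul]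
          · rw [ih j h5, mul_zero]
        · intro h'
          exact absurd (Finset.mem_univ i) h'
      · exact ih i h1
  have : c.repr x = 0 := Finsupp.ext fun i => key i i le_rfl
  simpa using this

theorem diag_injective (b c : Basis (Fin n) K V) (A : Module.End K V)
    (hA : (LinearMap.toMatrix b b A).IsDiag) (hA' : IrrTri (LinearMap.toMatrix c c A)) :
    Function.Injective (fun i => LinearMap.toMatrix b b A i i) := by
  intro i j hij
  by_contra hne
  simp only at hij
  have hn : 0 < n := by have := i.isLt; omega
  let z : Fin n := ⟨0, hn⟩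
  have h1 := diag_apply b A hA i
  have h2 := diag_apply b A hA j
  set t := LinearMap.toMatrix b b A i i with ht
  rw [← hij] at h2
  -- combination with zero first coordinate
  have h3 : c.repr (b j) z • b i - c.repr (b i) z • b j = 0 := by
    refine tridiag_eigen_zero c A hA' _ t ?_ ?_
    · rw [map_sub, map_smul, map_smul, h1, h2, smul_sub, smul_comm t, smul_comm t]
    · intro k hk
      have : k = z := Fin.ext hk
      rw [this]
      simp only [map_sub, map_smul, Finsupp.sub_apply, Finsupp.smul_apply, smul_eq_mul]
      ring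
  have h4 := congrArg (fun y => b.repr y j) h3
  simp only [map_sub, map_smul, Finsupp.sub_apply, Finsupp.smul_apply, smul_eq_mul, map_zero,
    Basis.repr_self, Finsupp.single_eq_same, Finsupp.zero_apply] at h4
  rw [Finsupp.single_eq_of_ne (Ne.symm hne), mul_zero, mul_one, zero_sub, neg_eq_zero] at h4
  have h5 : b i = 0 := tridiag_eigen_zero c A hA' _ t h1 (fun k hk => by
    have : k = z := Fin.ext hk
    rw [this, h4])
  exact b.ne_zero i h5

/-- invariant subspaces of an irreducible pair -/
theorem irred_of_basis (f : Basis (Fin n) K V) (A B : Module.End K V) (t : Fin n → K)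
    (ht : Function.Injective t) (hB : ∀ i, B (f i) = t i • f i)
    (hA : IrrTri (LinearMap.toMatrix f f A)) (W : Submodule K V) (hWA : ∀ w ∈ W, A w ∈ W)
    (hWB : ∀ w ∈ W, B w ∈ W) : W = ⊥ ∨ W = ⊤ := by
  have hproj : ∀ w ∈ W, ∀ i, f.repr w i • f i ∈ W := by
    intro w hw i
    set p : Polynomial K := ∏ j ∈ Finset.univ.erase i, (Polynomial.X - Polynomial.C (t j)) with hp
    have hpw : ∀ p : Polynomial K, ∀ w ∈ W, Polynomial.aeval B p w ∈ W := by
      intro p
      induction p using Polynomial.induction_on' with
      | add p q hp hq =>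
        intro w hw
        rw [map_add, LinearMap.add_apply]
        exact W.add_mem (hp w hw) (hq w hw)
      | monomial n c =>
        intro w hw
        rw [Polynomial.aeval_monomial, Module.End.mul_apply, Module.algebraMap_end_apply]
        refine W.smul_mem _ ?_
        induction n with
        | zero => simpa using hw
        | succ n ih => rw [pow_succ', Module.End.mul_apply]; exact hWB _ ih
    have heig : ∀ (p : Polynomial K) (k : Fin n), Polynomial.aeval B p (f k) =
        p.eval (t k) • f k := by
      intro p k
      induction p using Polynomial.induction_on' with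
      | add p q hp hq => rw [map_add, LinearMap.add_apply, hp, hq, Polynomial.eval_add, add_smul]
      | monomial n c =>
        rw [Polynomial.aeval_monomial, Module.End.mul_apply, Module.algebraMap_end_apply,
          Polynomial.eval_monomial]
        have : (B ^ n) (f k) = t k ^ n • f k := by
          induction n with
          | zero => simp
          | succ n ih => rw [pow_succ', Module.End.mul_apply, ih, map_smul, hB k, smul_smul,
              pow_succ]
        rw [this, smul_smul]
    have h2 : Polynomial.aeval B p w = p.eval (t i) • (f.repr w i • f i) := by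
      conv_lhs => rw [← f.sum_repr w]
      rw [map_sum, Finset.sum_eq_single i]
      · rw [map_smul, heig, smul_comm]
      · intro j _ hj
        rw [map_smul, heig, hp, Polynomial.eval_prod, Finset.prod_eq_zero (i := j)]
        · rw [zero_smul, smul_zero]
        · simp [hj]
        · simp
      · intro h; exact absurd (Finset.mem_univ _) h
    have h3 : p.eval (t i) ≠ 0 := by
      rw [hp, Polynomial.eval_prod, Finset.prod_ne_zero_iff]
      intro j hj
      rw [Polynomial.eval_sub, Polynomial.eval_X, Polynomial.eval_C, sub_ne_zero]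
      intro h4
      exact (Finset.ne_of_mem_erase hj) (ht h4).symm
    have h4 := hpw p w hw
    rw [h2] at h4
    exact (W.smul_mem_iff h3).1 h4
  by_cases hW : W = ⊥
  · exact Or.inl hW
  right
  obtain ⟨w, hw, hw0⟩ := W.exists_mem_ne_zero_of_ne_bot hW
  obtain ⟨i, hi⟩ : ∃ i, f.repr w i ≠ 0 := by
    by_contra hcon
    push Not at hcon
    apply hw0
    apply f.repr.injective
    ext k
    rw [hcon k, map_zero, Finsupp.zero_apply]
  have hfi : f i ∈ W := (W.smul_mem_iff hi).1 (hproj w hw i)
  have hstep : ∀ j k : Fin n, f j ∈ W → LinearMap.toMatrix f f A k j ≠ 0 → f k ∈ W := by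
    intro j k hj hk
    have := hproj _ (hWA _ hj) k
    rw [LinearMap.toMatrix_apply] at hk
    exact (W.smul_mem_iff hk).1 this
  have hup : ∀ m : ℕ, ∀ k : Fin n, (k : ℕ) = i + m → f k ∈ W := by
    intro m
    induction m with
    | zero => intro k hk; have : k = i := by ext; simpa using hk
              rw [this]; exact hfi
    | succ m ih =>
      intro k hk
      have hk' : (i : ℕ) + m < n := by have := k.2; omega
      exact hstep ⟨i + m, hk'⟩ k (ih _ rfl) ((hA k ⟨i + m, hk'⟩).2 (Or.inr (by simp [hk]; omega)))
  have hdown : ∀ m : ℕ, ∀ k : Fin n, (k : ℕ) + m = i → f k ∈ W := by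
    intro m
    induction m with
    | zero => intro k hk; have : k = i := by ext; simpa using hk
              rw [this]; exact hfi
    | succ m ih =>
      intro k hk
      have hk' : (k : ℕ) + 1 < n := by have := i.2; omega
      exact hstep ⟨k + 1, hk'⟩ k (ih _ (by simp; omega)) ((hA k ⟨k + 1, hk'⟩).2 (Or.inl rfl))
  have hall : ∀ k, f k ∈ W := by
    intro k
    rcases le_total (i : ℕ) (k : ℕ) with h | h
    · exact hup (k - i) k (by omega)
    · exact hdown (i - k) k (by omega)
  rw [eq_top_iff, ← f.span_eq, Submodule.span_le]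
  rintro _ ⟨k, rfl⟩
  exact hall k

end

/-! ### bases adapted to an `sl₂`-triple -/

section Sl2

variable {K : Type*} [Field K] [IsAlgClosed K] [CharZero K] {V : Type*} [AddCommGroup V]
  [Module K V] [FiniteDimensional K V]

/-- A basis of an irreducible module over `sl₂`. -/
theorem sl2_basis {d : ℕ} (hd : Module.finrank K V = d + 1) (H E F : Module.End K V)
    (h1 : H * E - E * H = (2 : K) • E) (h2 : H * F - F * H = (-2 : K) • F) (h3 : E * F - F * E = H)
    (hirr : ∀ W : Submodule K V, (∀ w ∈ W, E w ∈ W) → (∀ w ∈ W, F w ∈ W) → W = ⊥ ∨ W = ⊤) :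
    ∃ (b : Basis (Fin (d + 1)) K V) (v : ℕ → V), (∀ i, b i = v i) ∧ v (d + 1) = 0 ∧
      (∀ j, H (v j) = ((d : K) - 2 * j) • v j) ∧ (∀ j, F (v j) = v (j + 1)) ∧ E (v 0) = 0 ∧
      ∀ j, E (v (j + 1)) = (((j : K) + 1) * ((d : K) - j)) • v j := by
  have e1 : ∀ x, H (E x) = E (H x) + (2 : K) • E x := by
    intro x
    have := LinearMap.congr_fun h1 x
    simp only [LinearMap.sub_apply, Module.End.mul_apply, LinearMap.smul_apply] at this
    rw [← this]; abel
  have e2 : ∀ x, H (F x) = F (H x) + (-2 : K) • F x := by
    intro x
    have := LinearMap.congr_fun h2 x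
    simp only [LinearMap.sub_apply, Module.End.mul_apply, LinearMap.smul_apply] at this
    rw [← this]; abel
  have e3 : ∀ x, E (F x) = F (E x) + H x := by
    intro x
    have := LinearMap.congr_fun h3 x
    simp only [LinearMap.sub_apply, Module.End.mul_apply] at this
    rw [← this]; abel
  -- a sequence of eigenvectors of `H` with distinct eigenvalues vanishes somewhere
  have hvan : ∀ (w : ℕ → V) (μ : ℕ → K), Function.Injective μ → (∀ j, H (w j) = μ j • w j) →
      ∃ j, w j = 0 := by
    intro w μ hμ hw
    by_contra hcon
    push Not at hcon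
    have hli : LinearIndependent K w := Module.End.eigenvectors_linearIndependent' H μ hμ w
      fun j => ⟨Module.End.mem_eigenspace_iff.2 (hw j), hcon j⟩
    exact absurd (hli.finite) (not_finite_iff_infinite.2 inferInstance)
  have : Nontrivial V := Module.nontrivial_of_finrank_pos (R := K) (by omega)
  obtain ⟨μ, hμ⟩ := Module.End.exists_eigenvalue H
  obtain ⟨w, hw⟩ := hμ.exists_hasEigenvector
  have hw1 : H w = μ • w := hw.apply_eq_smul
  -- a primitive vector
  have hEk : ∀ k : ℕ, H ((E ^ k) w) = (μ + 2 * k) • (E ^ k) w := by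
    intro k
    induction k with
    | zero => simp [hw1]
    | succ k ih =>
      rw [pow_succ', Module.End.mul_apply, e1, ih, map_smul, ← add_smul]
      push_cast
      congr 1
      ring
  obtain ⟨k0, hk0⟩ := hvan (fun k => (E ^ k) w) (fun k => μ + 2 * k) (by
    intro i j hij
    have : (2 : K) * i = 2 * j := add_left_cancel hij
    exact_mod_cast mul_left_cancel₀ two_ne_zero this) hEk
  classical
  have hex : ∃ k, (E ^ k) w = 0 := ⟨k0, hk0⟩
  obtain ⟨k, hk⟩ : ∃ k, Nat.find hex = k + 1 := by
    refine ⟨Nat.find hex - 1, ?_⟩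
    have : Nat.find hex ≠ 0 := by
      intro h
      have := Nat.find_spec hex
      rw [h] at this
      exact hw.2 (by simpa using this)
    omega
  have hv0 : (E ^ k) w ≠ 0 := Nat.find_min hex (by omega)
  have hEv0 : E ((E ^ k) w) = 0 := by
    have := Nat.find_spec hex
    rw [hk, pow_succ', Module.End.mul_apply] at this
    exact this
  have hHv0 := hEk k
  set v0 := (E ^ k) w with hv0def
  set lam : K := μ + 2 * k with hlam
  let v : ℕ → V := fun j => (F ^ j) v0
  have vsucc : ∀ j, F (v j) = v (j + 1) := by
    intro j
    show F ((F ^ j) v0) = (F ^ (j + 1)) v0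
    rw [pow_succ', Module.End.mul_apply]
  have vH : ∀ j, H (v j) = (lam - 2 * j) • v j := by
    intro j
    induction j with
    | zero => simpa [v] using hHv0
    | succ j ih =>
      rw [← vsucc, e2, ih, map_smul, vsucc, ← add_smul]
      push_cast
      congr 1
      ring
  have vE : ∀ j, E (v (j + 1)) = (((j : K) + 1) * (lam - j)) • v j := by
    intro j
    induction j with
    | zero =>
      rw [← vsucc, e3, vH]
      have : E (v 0) = 0 := by simpa [v] using hEv0
      rw [this, map_zero, zero_add]
      simp
    | succ j ih =>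
      rw [← vsucc (j + 1), e3, ih, map_smul, vsucc, vH, ← add_smul]
      push_cast
      congr 1
      ring
  -- the length
  have hex2 : ∃ j, v j = 0 := hvan v (fun j => lam - 2 * j) (by
    intro i j hij
    have : (2 : K) * i = 2 * j := by
      have h : lam - 2 * (i : K) = lam - 2 * j := hij
      linear_combination -h
    exact_mod_cast mul_left_cancel₀ two_ne_zero this) vH
  obtain ⟨m, hm⟩ : ∃ m, Nat.find hex2 = m + 1 := by
    refine ⟨Nat.find hex2 - 1, ?_⟩
    have : Nat.find hex2 ≠ 0 := by
      intro h
      have := Nat.find_spec hex2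
      rw [h] at this
      exact hv0 (by simpa [v] using this)
    omega
  have hne : ∀ j ≤ m, v j ≠ 0 := fun j hj => Nat.find_min hex2 (by omega)
  have hz : v (m + 1) = 0 := by
    have := Nat.find_spec hex2
    rwa [hm] at this
  have hlm : lam = m := by
    have := vE m
    rw [hz, map_zero] at this
    rcases smul_eq_zero.1 this.symm with h | h
    · rcases mul_eq_zero.1 h with h | h
      · exact absurd h (by exact_mod_cast Nat.succ_ne_zero m)
      · exact sub_eq_zero.1 h
    · exact absurd h (hne m le_rfl)
  have hzz : ∀ j, m < j → v j = 0 := by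
    intro j hj
    obtain ⟨i, rfl⟩ : ∃ i, j = m + 1 + i := ⟨j - (m + 1), by omega⟩
    induction i with
    | zero => exact hz
    | succ i ih => rw [← add_assoc, ← vsucc, ih (by omega), map_zero]
  have hli : LinearIndependent K (fun i : Fin (m + 1) => v i) := by
    refine Module.End.eigenvectors_linearIndependent' H (fun i : Fin (m + 1) => lam - 2 * (i : ℕ)) ?_
      _ fun i => ⟨Module.End.mem_eigenspace_iff.2 (vH i), hne i (by have := i.2; omega)⟩
    intro i j hij
    have h : lam - 2 * ((i : ℕ) : K) = lam - 2 * ((j : ℕ) : K) := hij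
    have h' : (2 : K) * ((i : ℕ) : K) = 2 * ((j : ℕ) : K) := by linear_combination -h
    exact Fin.ext (by exact_mod_cast mul_left_cancel₀ two_ne_zero h')
  have hspan : Submodule.span K (Set.range fun i : Fin (m + 1) => v i) = ⊤ := by
    set W := Submodule.span K (Set.range fun i : Fin (m + 1) => v i) with hW
    have hmem : ∀ j, v j ∈ W := by
      intro j
      by_cases hj : j < m + 1
      · exact Submodule.subset_span ⟨⟨j, hj⟩, rfl⟩
      · rw [hzz j (by omega)]; exact W.zero_mem
    have hinv : ∀ T : Module.End K V, (∀ j, T (v j) ∈ W) → ∀ w ∈ W, T w ∈ W := by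
      intro T hT w hw
      rw [hW] at hw
      induction hw using Submodule.span_induction with
      | mem w hw =>
        obtain ⟨i, rfl⟩ := hw
        exact hT i
      | zero => rw [map_zero]; exact W.zero_mem
      | add x y _ _ hx hy => rw [map_add]; exact W.add_mem hx hy
      | smul c x _ hx => rw [map_smul]; exact W.smul_mem _ hx
    rcases hirr W (hinv E fun j => by
        rcases j with _ | j
        · have : E (v 0) = 0 := by simpa [v] using hEv0
          rw [this]; exact W.zero_mem
        · rw [vE]; exact W.smul_mem _ (hmem j)) (hinv F fun j => by rw [vsucc]; exact hmem _)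
      with h | h
    · have := hmem 0
      rw [h, Submodule.mem_bot] at this
      exact absurd this (hne 0 (Nat.zero_le _))
    · exact h
  have hmd : m = d := by
    have h := finrank_span_eq_card hli
    rw [hspan, finrank_top, Fintype.card_fin, hd] at h
    omega
  subst hmd
  refine ⟨Basis.mk hli hspan.ge, v, fun i => by rw [Basis.mk_apply], hz, fun j => ?_, vsucc, ?_,
    fun j => ?_⟩
  · rw [vH, hlm]
  · simpa [v] using hEv0
  · rw [vE, hlm]

omit [IsAlgClosed K] [FiniteDimensional K V] in
/-- a combination of `1, H, E, F` in such a basis -/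
theorem irrTri_of_sl2 {d : ℕ} {b : Basis (Fin (d + 1)) K V} {v : ℕ → V} (hb : ∀ i, b i = v i)
    (hz : v (d + 1) = 0) {H E F : Module.End K V} (hH : ∀ j, H (v j) = ((d : K) - 2 * j) • v j)
    (hF : ∀ j, F (v j) = v (j + 1)) (hE0 : E (v 0) = 0)
    (hE : ∀ j, E (v (j + 1)) = (((j : K) + 1) * ((d : K) - j)) • v j) (x a β γ : K) (hβ : β ≠ 0)
    (hγ : γ ≠ 0) : IrrTri (LinearMap.toMatrix b b (x • 1 + a • H + β • E + γ • F)) := by
  -- the matrix entries
  have hrepr : ∀ (j : ℕ) (i : Fin (d + 1)), b.repr (v j) i = if j = i then 1 else 0 := by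
    intro j i
    by_cases hj : j < d + 1
    · have : v j = b ⟨j, hj⟩ := (hb ⟨j, hj⟩).symm
      rw [this, b.repr_self, Finsupp.single_apply]
      by_cases h : j = i
      · rw [if_pos h, if_pos (Fin.ext h)]
      · rw [if_neg h, if_neg (fun h' => h (congrArg Fin.val h'))]
    · have : ∀ k, v (d + 1 + k) = 0 := by
        intro k
        induction k with
        | zero => exact hz
        | succ k ih => rw [← add_assoc, ← hF, ih, map_zero]
      obtain ⟨k, rfl⟩ : ∃ k, j = d + 1 + k := ⟨j - (d + 1), by omega⟩
      rw [this, map_zero, Finsupp.zero_apply, if_neg]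
      have := i.2
      omega
  intro i j
  have hentry : LinearMap.toMatrix b b (x • 1 + a • H + β • E + γ • F) i j =
      x * (if (j : ℕ) = i then 1 else 0) + a * (((d : K) - 2 * (j : ℕ)) * if (j : ℕ) = i then 1 else 0) +
      β * ((j : ℕ) * ((d : K) - (j : ℕ) + 1) * if (j : ℕ) = i + 1 then 1 else 0) +
      γ * if (j : ℕ) + 1 = i then 1 else 0 := by
    rw [LinearMap.toMatrix_apply, hb j]
    simp only [LinearMap.add_apply, LinearMap.smul_apply, Module.End.one_apply, map_add, map_smul,
      Finsupp.add_apply, Finsupp.smul_apply, smul_eq_mul]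
    rw [hH, hF, map_smul, Finsupp.smul_apply, hrepr, hrepr, smul_eq_mul]
    congr 2
    congr 1
    rcases hj : (j : ℕ) with _ | j'
    · rw [hE0]
      simp
    · rw [hE, map_smul, Finsupp.smul_apply, hrepr, smul_eq_mul]
      push_cast
      by_cases h : j' = i
      · rw [if_pos h]
        ring
      · rw [if_neg h]
        ring
  rw [hentry]
  constructor
  · rintro (h | h)
    · rw [if_neg (by omega), if_neg (by omega), if_neg (by omega)]
      ring
    · rw [if_neg (by omega), if_neg (by omega), if_neg (by omega)]
      ring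
  · rintro (h | h)
    · rw [if_neg (by omega), if_pos h.symm, if_neg (by omega)]
      have h1 : ((j : ℕ) : K) ≠ 0 := by
        have : (j : ℕ) ≠ 0 := by omega
        exact_mod_cast this
      have h2 : (d : K) - (j : ℕ) + 1 ≠ 0 := by
        have h3 : (j : ℕ) ≤ d := by have := j.2; omega
        have h4 : (d : K) - (j : ℕ) + 1 = ((d - j + 1 : ℕ) : K) := by
          push_cast [Nat.cast_sub h3]
          ring
        rw [h4]
        exact Nat.cast_ne_zero.2 (by omega)
      simp only [mul_zero, mul_one, zero_add, add_zero]
      exact mul_ne_zero hβ (mul_ne_zero h1 h2)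
    · rw [if_neg (by omega), if_neg (by omega), if_pos h]
      simpa using hγ

omit [IsAlgClosed K] [FiniteDimensional K V] [CharZero K] in
theorem diag_of_sl2 {d : ℕ} {b : Basis (Fin (d + 1)) K V} {v : ℕ → V} (hb : ∀ i, b i = v i)
    {H : Module.End K V} (hH : ∀ j, H (v j) = ((d : K) - 2 * j) • v j) (x a : K) :
    (LinearMap.toMatrix b b (x • 1 + a • H)).IsDiag := by
  intro i j hij
  rw [LinearMap.toMatrix_apply, hb j]
  simp only [LinearMap.add_apply, LinearMap.smul_apply, Module.End.one_apply]
  rw [hH, ← hb j]
  simp only [map_add, map_smul, Finsupp.add_apply, Finsupp.smul_apply, b.repr_self]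
  rw [Finsupp.single_eq_of_ne hij]
  simp

end Sl2

end Pool.Agent.D0H77
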